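import Mathlib
import Pool.Agent.H72.W.NXB
import Pool.Agent.H95.W.CoR
import Pool.Agent.H31.Sp.Poly

set_option autoImplicit false
open Finset

/-! # Windows which are scaled polyominoes (class `H54.W.Win`)

Port of `H31/Sp/Coarse`. `Coarse D n H A B` : the row `y` of the window is `[n A (y/n), n B (y/n))`, except for
notches at the left: the row may be one tile longer at a reflex corner of the polyomino. As the right wall of
the window is flat, `B` is constant on the rows (`Coarse.ofR` : from `CoarseR`, `B = fun _ => W`). The cells `CQ`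
are helper31's. -/

namespace Pool.Agent.H95.W.N

open Pool.Agent.H54.W (Win)
open Pool.Agent.H72.W.N (InP sh)
open Pool.Agent.H31.Sp (CQ)

/-- **The window `D` is a polyomino with cells of side `n`, up to notches at the reflex corners.** The row `Y`
of the polyomino is `A Y ≤ X < B Y`. -/
structure Coarse (D : Win) (n H : ℤ) (A B : ℤ → ℤ) : Prop where
  hn : 8 ≤ n
  HH : 0 < H
  hh : D.h = n * H
  AB : ∀ Y, 0 ≤ Y → Y < H → A Y < B Y
  ov1 : ∀ Y, 0 ≤ Y → Y + 1 < H → A Y < B (Y + 1)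
  ov2 : ∀ Y, 0 ≤ Y → Y + 1 < H → A (Y + 1) < B Y
  a : ∀ y, 0 ≤ y → y < D.h → D.a y = n * A (y / n) ∨ (D.a y = n * A (y / n) - 1 ∧
    ((y % n = n - 1 ∧ y / n + 1 < H ∧ A (y / n + 1) < A (y / n)) ∨
      (y % n = 0 ∧ 0 < y / n ∧ A (y / n - 1) < A (y / n))))
  b : ∀ y, 0 ≤ y → y < D.h → D.w = n * B (y / n)

/-- **The same with the colours**: `CL Y` is the colour at the left of the row `Y` of the polyomino. -/
structure CoarseC (D : Win) (n H : ℤ) (A B : ℤ → ℤ) (CL : ℤ → Bool) : Prop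
    extends Coarse D n H A B where
  cl : ∀ y, 0 ≤ y → y < D.h → D.cl y = CL (y / n)

variable {D : Win} {n H : ℤ} {A B : ℤ → ℤ} {p : Bool} {x y X Y : ℤ} {CL : ℤ → Bool}

/-- from helper95's `CoarseR` -/
theorem Coarse.ofR {W : ℤ} (C : CoarseR D n H W A) : Coarse D n H A (fun _ => W) where
  hn := C.hn
  HH := C.HH
  hh := C.hh
  AB := C.AW
  ov1 := fun Y h0 h1 => C.AW Y h0 (by omega)
  ov2 := fun Y h0 h1 => C.AW (Y + 1) (by omega) h1
  a := C.a
  b := fun _ _ _ => C.ww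

theorem CoarseC.ofR {W : ℤ} (C : CoarseRC D n H W A CL) : CoarseC D n H A (fun _ => W) CL where
  toCoarse := Coarse.ofR C.toCoarseR
  cl := C.cl

namespace Coarse

variable (C : Coarse D n H A B)

include C

lemma pos : 0 < n := by have := C.hn; omega

/-- the row of cells -/
lemma row (h0 : 0 ≤ y) (h1 : y < D.h) : 0 ≤ y / n ∧ y / n < H := by
  have hn := C.pos
  have hh := C.hh
  refine ⟨Int.ediv_nonneg h0 hn.le, ?_⟩
  rw [Int.ediv_lt_iff_lt_mul hn, mul_comm]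
  omega

lemma row_iff : (0 ≤ y / n ∧ y / n < H) ↔ (0 ≤ y ∧ y < D.h) := by
  have hn := C.pos
  have hh := C.hh
  constructor
  · rintro ⟨h1, h2⟩
    rw [Int.ediv_lt_iff_lt_mul hn, mul_comm] at h2
    have h3 := Int.emod_add_mul_ediv y n
    have h4 := Int.emod_nonneg y hn.ne'
    have h5 : 0 ≤ n * (y / n) := mul_nonneg hn.le h1
    omega
  · rintro ⟨h1, h2⟩
    exact C.row h1 h2

/-- the right wall is flat -/
lemma B_eq (h0 : 0 ≤ X) (h1 : X < H) (h2 : 0 ≤ Y) (h3 : Y < H) : B X = B Y := by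
  have hn := C.pos
  have hh := C.hh
  have key : ∀ Z, 0 ≤ Z → Z < H → D.w = n * B Z := fun Z k0 k1 => by
    have k2 : n * (Z + 1) ≤ n * H := mul_le_mul_of_nonneg_left (by omega) hn.le
    have k3 : n * (Z + 1) = n * Z + n := by ring
    have k4 := C.b (n * Z) (mul_nonneg hn.le k0) (by omega)
    rwa [Int.mul_ediv_cancel_left _ hn.ne'] at k4
  have e := (key X h0 h1).symm.trans (key Y h2 h3)
  exact mul_left_cancel₀ hn.ne' e

lemma a_le (h0 : 0 ≤ y) (h1 : y < D.h) : n * A (y / n) - 1 ≤ D.a y ∧ D.a y ≤ n * A (y / n) := by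
  rcases C.a y h0 h1 with h | ⟨h, -⟩ <;> omega

/-- cells without the notches -/
lemma inP_of (hQ : CQ H A B ((x + sh p) / n) (y / n)) : InP D p x y := by
  have hn := C.pos
  obtain ⟨h1, h2, h3, h4⟩ := hQ
  obtain ⟨k1, k2⟩ := C.row_iff.1 ⟨h1, h2⟩
  have g1 := C.a_le k1 k2
  have g2 := C.b _ k1 k2
  rw [Int.le_ediv_iff_mul_le hn, mul_comm] at h3
  rw [Int.ediv_lt_iff_lt_mul hn, mul_comm] at h4
  exact ⟨k1, k2, by omega, by omega⟩

/-- tiles which are not notches -/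
lemma inP_iff (ht : ¬ (((x + sh p) % n = 0 ∨ (x + sh p) % n = n - 1) ∧
    (y % n = 0 ∨ y % n = n - 1))) :
    InP D p x y ↔ CQ H A B ((x + sh p) / n) (y / n) := by
  have hn := C.pos
  refine ⟨fun h => ?_, C.inP_of⟩
  obtain ⟨k1, k2, k3, k4⟩ := h
  obtain ⟨h1, h2⟩ := C.row k1 k2
  refine ⟨h1, h2, ?_, ?_⟩
  · rw [Int.le_ediv_iff_mul_le hn, mul_comm]
    rcases C.a _ k1 k2 with g | ⟨g, g'⟩
    · omega
    · by_contra hc
      have e : x + sh p = n * A (y / n) - 1 := by omega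
      apply ht
      refine ⟨Or.inr ?_, by rcases g' with ⟨g', -⟩ | ⟨g', -⟩ <;> omega⟩
      rw [e, show n * A (y / n) - 1 = (n - 1) + n * (A (y / n) - 1) by ring,
        Int.add_mul_emod_self_left, Int.emod_eq_of_lt (by omega) (by omega)]
  · rw [Int.ediv_lt_iff_lt_mul hn, mul_comm]
    have := C.b _ k1 k2
    omega

omit C in
lemma nd1 (C : Coarse D n H A B) (h1 : CQ H A B (X - 1) (Y - 1)) (h2 : CQ H A B X Y) :
    CQ H A B X (Y - 1) ∨ CQ H A B (X - 1) Y := by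
  obtain ⟨a1, a2, a3, a4⟩ := h1
  obtain ⟨b1, b2, b3, b4⟩ := h2
  have h3 := C.ov2 (Y - 1) a1 (by omega)
  rw [sub_add_cancel] at h3
  by_cases h : X < B (Y - 1)
  · exact Or.inl ⟨a1, a2, by omega, h⟩
  · exact Or.inr ⟨b1, b2, by omega, by omega⟩

omit C in
lemma nd2 (C : Coarse D n H A B) (h1 : CQ H A B X (Y - 1)) (h2 : CQ H A B (X - 1) Y) :
    CQ H A B (X - 1) (Y - 1) ∨ CQ H A B X Y := by
  obtain ⟨a1, a2, a3, a4⟩ := h1
  obtain ⟨b1, b2, b3, b4⟩ := h2
  have h3 := C.ov1 (Y - 1) a1 (by omega)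
  rw [sub_add_cancel] at h3
  by_cases h : X < B Y
  · exact Or.inr ⟨b1, b2, by omega, h⟩
  · exact Or.inl ⟨a1, a2, by omega, by omega⟩

end Coarse

end Pool.Agent.H95.W.N
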