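import Mathlib
import Pool.Agent.H95.W.N.Coarse

set_option autoImplicit false
open Finset

/-! # The arcs of the unit boundary edges of the left arc, in terms of the polyomino (class `H54.W.Win`)

Successor of `H31/Sp/Edge`, left arc only (bottom, left walls, floors, ceilings, top; the right wall of the
reference window has no ties). `aL Y`, `aB`, `aT` : arcs at the left end of the row `Y` of cells, of the bottom and
of the top. `hA X Y` : arc of the horizontal edge from `(X, Y)` to `(X + 1, Y)`. `AVi i`, `AHi i` : the edges of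
the arc `i`. `Vti i` : inner ends of the ties of the arc `i`. -/

namespace Pool.Agent.H95.W.N

open Pool.Agent.H33.Q1 (lt)
open Pool.Agent.H54.W (Win)
open Pool.Agent.H72.W.N
open Pool.Agent.H13.R45 (gp)
open Pool.Agent.H39.Q1 (TF)
open Pool.Agent.H31.Sp (CQ)

section Defs

variable (D : Win) (n H : ℤ) (A B : ℤ → ℤ) (p : Bool) (s0 : ℤ)

/-- arc at the left end of the row `Y` of cells -/
def aL (Y : ℤ) : ℤ := rep D s0 (2 * D.h + 1 - (n * Y + 1))
/-- arc of the bottom -/
def aB : ℤ := rep D s0 0
/-- arc of the top -/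
def aT : ℤ := rep D s0 (D.h + 1)

open Classical in
/-- arc of a horizontal boundary edge -/
noncomputable def hA (X Y : ℤ) : ℤ :=
  if CQ H A B X Y then (if Y = 0 then aB D s0 else aL D n s0 (Y - 1))
  else (if Y = H then aT D s0 else aL D n s0 Y)

/-- vertical boundary edges of the arc `i` -/
def AVi (i X Y : ℤ) : Prop := (CQ H A B X Y ∧ ¬ CQ H A B (X - 1) Y) ∧ aL D n s0 Y = i

/-- horizontal boundary edges of the arc `i` -/
def AHi (i X Y : ℤ) : Prop := ¬ (CQ H A B X Y ↔ CQ H A B X (Y - 1)) ∧ hA D n H A B s0 X Y = i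

/-- inner ends of the ties of the arc `i` -/
def Vti (i x y : ℤ) : Prop := (x + y) % 2 = (if colp D i = true then 0 else 1) ∧
  ∃ e ∈ TF (TA D p) (fmA D p s0) i, bA D p e = gp (x, y)

end Defs

end Pool.Agent.H95.W.N
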