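import Mathlib
import Pool.Agent.H95.W.N.Edge
import Pool.Agent.H31.Sp.Dat

set_option autoImplicit false
open Finset

/-! # The walls of a window: data (class `H54.W.Win`)

Successor of `H31/Sp/Dat`, left arc only (the cells, `Ed`, `EdF`, `verS`, `posS` are helper31's). `KL H A B` : the
unit boundary edges `(s, X, Y)` of the kinds `L`, `F`, `C`. `lnW`, `bW` : coordinate of the line
of an edge and of its lower end along the line, in tile coordinates. `ek e` : the edge of the tie `e`, `wlD` :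
the same as an element of `KL` (default `w0`), `fwD`, `epD`, `deD` : arc, frame and direction of an edge.
`gW` : grid point of an edge at a position. `HtW` : `lo`, `hi` are the extreme positions of tie points.
`x0D`, `ND` : the wall of ties of the edge in its frame. `FlD` : ties at distance at least `r` from the ends.
`datD` : the data of the assembly. -/

namespace Pool.Agent.H95.W.N

open Pool.Agent.H33.Q1 (lt tt tt_lt)
open Pool.Agent.H54.W (Win)
open Pool.Agent.H72.W.N
open Pool.Agent.H31.Sp (CQ Ed EdF mem_EdF verS posS)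
open Pool.Agent.H42.Sp (Sd)
open Pool.Agent.H13.R45 (gp)
open Pool.Agent.H39.Q1 (TF gm)
open Pool.Agent.H54.Sp (eS dS)
open Pool.Agent.Q1.M6e.Wn (DatW)

open Classical in
/-- the boundary edges of the left arc -/
noncomputable def EdL (H : ℤ) (A B : ℤ → ℤ) : Finset (Sd × ℤ × ℤ) := (EdF H A B).filter fun w => w.1 ≠ Sd.R

lemma mem_EdL {H : ℤ} {A B : ℤ → ℤ} {w : Sd × ℤ × ℤ} :
    w ∈ EdL H A B ↔ Ed H A B w.1 w.2.1 w.2.2 ∧ w.1 ≠ Sd.R := by
  classical
  unfold EdL
  rw [mem_filter, mem_EdF]

/-- **the walls of the left arc of the window** -/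
abbrev KL (H : ℤ) (A B : ℤ → ℤ) : Type := {w : Sd × ℤ × ℤ // w ∈ EdL H A B}

/-- **The data of the tied natural window `XA O p S`**: `s0` cut of the ring, `L` size of the large box, `m`
thickness of the layers -/
noncomputable def datA {κ : Type} [Fintype κ] {D : Win} (O : OutB D) (p : Bool) (s0 L m : ℤ)
    (S : Finset (ℤ × ℤ)) (hS : S ⊆ FR D p) (wl : ℤ × ℤ → κ) (fw : κ → ℤ) (ε : κ → Bool × Bool)
    (δ : κ → ℤ × ℤ) : DatW ℤ κ where
  X := XA O p S hS
  W := WA O p S
  Bb := EN D p
  B := LBA D p (m + 1)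
  TT := TA D p
  fm := fmA D p s0
  co := colp D
  Wl := WlA D p s0 L S
  La := LaA D p s0 m
  b := bA D p
  o := oA D p
  rk := Pool.Agent.Q1.M6e.Wn.rkW (TA D p) wl ε (bA D p)
  wl := wl
  fw := fw
  ε := ε
  δ := δ

section Defs

variable (D : Win) (n H : ℤ) (A B : ℤ → ℤ) (p : Bool) (s0 : ℤ)

/-- the line of an edge -/
def lnW (w : Sd × ℤ × ℤ) : ℤ := if verS w.1 = true then n * w.2.1 - sh p else n * w.2.2

/-- position of the lower end of an edge -/
def bW (w : Sd × ℤ × ℤ) : ℤ := if verS w.1 = true then n * w.2.2 else n * w.2.1 - sh p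

/-- the grid point at the position `y` of an edge -/
def gW (w : Sd × ℤ × ℤ) (y : ℤ) : ℤ × ℤ :=
  if verS w.1 = true then (lnW n p w, y) else (y, lnW n p w)

/-- the layer tile of an edge at the position `y` -/
def tlW (w : Sd × ℤ × ℤ) (y : ℤ) : ℤ × ℤ :=
  match w.1 with
  | .L => (lnW n p w - 1, y)
  | .R => (lnW n p w, y)
  | .F => (y, lnW n p w - 1)
  | .C => (y, lnW n p w)

/-- the edge of a tie -/
noncomputable def ek (e : ℤ × ℤ) : Sd × ℤ × ℤ :=
  (kd D p (tt e).1 (tt e).2,
    ((bt (kd D p (tt e).1 (tt e).2) (natc D p (tt e).1 (tt e).2) (tt e)).1 + sh p) / n,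
    (bt (kd D p (tt e).1 (tt e).2) (natc D p (tt e).1 (tt e).2) (tt e)).2 / n)

open Classical in
/-- **the wall of a tie** -/
noncomputable def wlD (w0 : KL H A B) (e : ℤ × ℤ) : KL H A B :=
  if h : ek D n p e ∈ EdL H A B then ⟨ek D n p e, h⟩ else w0

/-- **the arc of a wall** -/
noncomputable def fwD (w : KL H A B) : ℤ :=
  if verS w.1.1 = true then aL D n s0 w.1.2.2 else hA D n H A B s0 w.1.2.1 w.1.2.2

/-- **the frame of a wall** -/
def epD (w : KL H A B) : Bool × Bool := eS w.1.1

/-- **the direction of the ties of a wall** -/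
noncomputable def deD (w : KL H A B) : ℤ × ℤ := dS (colp D (fwD D n H A B s0 w))

/-- `lo`, `hi` : the lowest and the highest tie point of the edge `w` -/
structure HtW (w : Sd × ℤ × ℤ) (lo hi : ℤ) : Prop where
  lo0 : bW n p w ≤ lo
  lo1 : lo ≤ bW n p w + 3
  hi0 : bW n p w + n - 3 ≤ hi
  hi1 : hi ≤ bW n p w + n
  iff : ∀ y, bW n p w ≤ y → y ≤ bW n p w + n →
    ((LyA D p w.1 (tlW n p w (y - 1)).1 (tlW n p w (y - 1)).2 ∧
      LyA D p w.1 (tlW n p w y).1 (tlW n p w y).2) ↔ lo ≤ y ∧ y ≤ hi)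

/-- extreme tie points of an edge -/
noncomputable def qW (w : Sd × ℤ × ℤ) : ℤ × ℤ :=
  Classical.epsilon fun q : ℤ × ℤ => HtW D n p w q.1 q.2

/-- lowest inner end of the colour `c` -/
noncomputable def loD (c : Bool) (w : Sd × ℤ × ℤ) : ℤ :=
  (qW D n p w).1 + ((qW D n p w).1 + lnW n p w + (if c = true then 0 else 1)) % 2

/-- highest inner end of the colour `c` -/
noncomputable def hiD (c : Bool) (w : Sd × ℤ × ℤ) : ℤ :=
  (qW D n p w).2 - ((qW D n p w).2 + lnW n p w + (if c = true then 0 else 1)) % 2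

/-- **the first tied vertex of a wall in its frame** -/
noncomputable def x0D (w : KL H A B) : ℤ × ℤ :=
  gm (epD H A B w) (gp (gW n p w.1 (if posS w.1.1 = true then
    hiD D n p (colp D (fwD D n H A B s0 w)) w.1 else loD D n p (colp D (fwD D n H A B s0 w)) w.1)))

/-- **the length of a wall** -/
noncomputable def ND (w : KL H A B) : ℤ :=
  (hiD D n p (colp D (fwD D n H A B s0 w)) w.1 - loD D n p (colp D (fwD D n H A B s0 w)) w.1) / 2

/-- position of an inner end along its wall -/
noncomputable def poD (e : ℤ × ℤ) : ℤ :=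
  if verS (kd D p (tt e).1 (tt e).2) = true then
    (bt (kd D p (tt e).1 (tt e).2) (natc D p (tt e).1 (tt e).2) (tt e)).2
  else (bt (kd D p (tt e).1 (tt e).2) (natc D p (tt e).1 (tt e).2) (tt e)).1

open Classical in
/-- **the flat ties of a wall**: distance at least `r` from the ends of the edge (tile units) -/
noncomputable def FlD (w0 : KL H A B) (r : ℤ) (w : KL H A B) : Finset (ℤ × ℤ) :=
  (TA D p).filter fun e => wlD D n H A B p w0 e = w ∧ bW n p w.1 + r ≤ poD D p e ∧
    poD D p e + r ≤ bW n p w.1 + n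

end Defs

/-- **The data of the tied natural window.** `w0` : any wall, `L` : size of the large box, `m` : thickness
of the layers -/
noncomputable def datD {D : Win} (O : OutB D) (n H : ℤ) (A B : ℤ → ℤ) (p : Bool) (s0 L m : ℤ)
    (S : Finset (ℤ × ℤ)) (hS : S ⊆ FR D p) (w0 : KL H A B) : DatW ℤ (KL H A B) :=
  datA O p s0 L m S hS (wlD D n H A B p w0) (fwD D n H A B s0) (epD H A B) (deD D n H A B s0)

section

variable {D : Win} {n H : ℤ} {A B : ℤ → ℤ} {p : Bool} {s0 u v : ℤ} {s : Sd} {c : Bool}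
  {w w0 : KL H A B}

lemma ek_tie (h : TieP D p s c u v) :
    ek D n p (lt (u, v)) = (s, ((bt s c (u, v)).1 + sh p) / n, (bt s c (u, v)).2 / n) := by
  unfold ek; rw [tt_lt]; simp only; rw [kd_eq h.ly, h.col]

lemma poD_tie (h : TieP D p s c u v) : poD D p (lt (u, v)) =
    if verS s = true then (bt s c (u, v)).2 else (bt s c (u, v)).1 := by
  unfold poD; rw [tt_lt]; simp only; rw [kd_eq h.ly, h.col]

lemma wlD_eq (h : ek D n p (lt (u, v)) = w.1) : wlD D n H A B p w0 (lt (u, v)) = w := by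
  unfold wlD
  rw [dif_pos (h ▸ w.2)]
  exact Subtype.ext h

end

end Pool.Agent.H95.W.N
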