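import Mathlib
import Pool.Agent.H95.W.N.Edge
import Pool.Agent.H31.Sp.GeoA

set_option autoImplicit false
open Finset

/-! # Coarse windows: tiles near lattice points (class `H54.W.Win`)

Port of `H31/Sp/GeoA`. `Coarse.geo_ok` : the field `ok` of `Geo`. -/

namespace Pool.Agent.H95.W.N

open Pool.Agent.H33.Q1 (lt)
open Pool.Agent.H54.W (Win)
open Pool.Agent.H72.W.N
open Pool.Agent.H31.Sp (CQ Rfx Tch TFl dm_eq)

variable {D : Win} {n H : ℤ} {A B : ℤ → ℤ} {p : Bool} {x y X Y : ℤ}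

lemma Coarse.inP_flat (C : Coarse D n H A B) (hR : ¬ Rfx (CQ H A B) X Y)
    (h1 : n * X - 1 ≤ x + sh p) (h2 : x + sh p ≤ n * X) (h3 : n * Y - 1 ≤ y) (h4 : y ≤ n * Y) :
    InP D p x y ↔ CQ H A B ((x + sh p) / n) (y / n) := by
  have hn := C.hn
  refine ⟨fun h => ?_, C.inP_of⟩
  obtain ⟨k1, k2, k3, k4⟩ := h
  obtain ⟨g1, g2⟩ := C.row k1 k2
  have e1 := dm_eq hn h1 h2
  have e2 := dm_eq hn h3 h4
  have ea := C.a _ k1 k2
  have eb := C.b _ k1 k2
  set V := y / n with hV
  have hA : n * A V ≤ x + sh p → A V ≤ (x + sh p) / n := fun h => by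
    rw [Int.le_ediv_iff_mul_le (by omega), mul_comm]; exact h
  have hB : x + sh p < n * B V → (x + sh p) / n < B V := fun h => by
    rw [Int.ediv_lt_iff_lt_mul (by omega), mul_comm]; exact h
  refine ⟨g1, g2, hA ?_, hB (by omega)⟩
  by_contra hc
  have ex : x + sh p = n * A V - 1 := by omega
  have hX : X = A V := by
    rcases e1 with ⟨f1, -⟩ | ⟨f1, -⟩
    · exfalso
      have : n * (A V - X) = 1 := by rw [mul_sub]; omega
      have := Int.eq_one_or_neg_one_of_mul_eq_one this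
      omega
    · exact mul_left_cancel₀ (a := n) (by omega) (by omega)
  apply hR
  rcases ea with ea | ⟨-, ⟨f1, f2, f3⟩ | ⟨f1, f2, f3⟩⟩
  · omega
  · have hY : Y = V + 1 := by omega
    have o1 := C.ov1 V g1 f2
    have o3 := C.AB V g1 g2
    subst hX hY
    left
    unfold CQ
    rw [add_sub_cancel_right]
    omega
  · have hY : Y = V := by omega
    have o1 := C.ov2 (V - 1) (by omega) (by omega)
    have o3 := C.AB V g1 g2
    rw [sub_add_cancel] at o1
    subst hX hY
    right; right; left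
    unfold CQ
    omega

/-- **the field `ok`** -/
lemma Coarse.geo_ok (C : Coarse D n H A B) (x y : ℤ)
    (h : ¬ Tch n (-sh p, 0) x y ∨ TFl n (-sh p, 0) (CQ H A B) x y) :
    InP D p x y ↔ CQ H A B ((x - (-sh p, 0).1) / n) ((y - ((-sh p : ℤ), (0 : ℤ)).2) / n) := by
  simp only [sub_zero, sub_neg_eq_add]
  rcases h with h | ⟨X, Y, h0, h1, h2, h3, h4⟩
  · refine C.inP_iff ?_
    unfold Tch at h
    simpa only [sub_zero, sub_neg_eq_add] using h
  · simp only at h1 h2 h3 h4
    exact C.inP_flat h0 (by omega) (by omega) (by omega) (by omega)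

end Pool.Agent.H95.W.N
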