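import Mathlib
import Pool.Agent.H95.W.N.GeoA
import Pool.Agent.H31.Sp.Frame

set_option autoImplicit false
open Finset

/-! # Coarse windows: layer tiles, arcs at the lattice points (port of `H31/Sp/GeoB`)

`lyL` etc. : the layer tiles of helper13 are the layer tiles of `Poly`. `ArcB` : the arcs of the layer tiles
in terms of the unit edges. `ArcB.cont` : the field `cont` of `Geo`. -/

namespace Pool.Agent.H95.W.N

open Pool.Agent.H33.Q1 (lt tt tt_lt)
open Pool.Agent.H54.W (Win)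
open Pool.Agent.H72.W.N
open Pool.Agent.H31.Sp (CQ LL LR LF LC Two AtE FullE)
open Pool.Agent.H42.Sp (Sd)

variable {D : Win} {n H s0 i : ℤ} {A B : ℤ → ℤ} {p : Bool} {x y X Y : ℤ}

lemma lyL : LL (InP D p) x y ↔ LyA D p .L x y := by
  unfold LL LyA LyP
  rw [inP_iff, inP_iff, inP_iff, inP_iff, show x + 1 + sh p = x + sh p + 1 by ring]
  set U := x + sh p
  unfold PT
  constructor
  · rintro ⟨⟨h1, h2, h3, h4⟩, h5, h6, h7⟩
    have o1 := D.aw y h1 h2
    refine ⟨h1, h2, by omega, fun h => ?_, fun h => ?_⟩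
    · have := D.aw (y - 1) (by omega) (by omega)
      omega
    · have := D.aw (y + 1) (by omega) (by omega)
      omega
  · rintro ⟨h1, h2, h3, h4, h5⟩
    have o1 := D.aw y h1 h2
    refine ⟨⟨h1, h2, by omega, by omega⟩, by omega, fun h => ?_, fun h => ?_⟩
    · have := h5 h.2.1; omega
    · have := h4 (by omega); omega

lemma lyR : LR (InP D p) x y ↔ LyA D p .R x y := by
  unfold LR LyA LyP
  rw [inP_iff, inP_iff, inP_iff, inP_iff, show x - 1 + sh p = x + sh p - 1 by ring]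
  set U := x + sh p
  unfold PT
  constructor
  · rintro ⟨⟨h1, h2, h3, h4⟩, h5, h6, h7⟩
    refine ⟨h1, h2, by omega⟩
  · rintro ⟨h1, h2, h3⟩
    have o1 := D.aw y h1 h2
    exact ⟨⟨h1, h2, by omega, by omega⟩, by omega, by omega, by omega⟩

lemma lyF : LF (InP D p) x y ↔ LyA D p .F x y := by
  unfold LF LyA LyP
  rw [inP_iff, inP_iff, inP_iff, inP_iff, show x + 1 + sh p = x + sh p + 1 by ring,
    show x - 1 + sh p = x + sh p - 1 by ring]
  set U := x + sh p
  unfold PT
  constructor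
  · rintro ⟨⟨h1, h2, h3, h4⟩, h5, h6, h7⟩
    refine ⟨by omega, by omega, by omega, by omega, fun h => ?_⟩
    have := D.aw y h (by omega)
    omega
  · rintro ⟨h1, h2, h3, h4, h5⟩
    refine ⟨⟨by omega, by omega, by omega, by omega⟩, fun h => ?_, fun h => ?_, fun h => ?_⟩
    · have := h5 h.1; omega
    · have := h5 h.1; omega
    · have := h5 h.1; omega

lemma lyC : LC (InP D p) x y ↔ LyA D p .C x y := by
  unfold LC LyA LyP
  rw [inP_iff, inP_iff, inP_iff, inP_iff, show x + 1 + sh p = x + sh p + 1 by ring,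
    show x - 1 + sh p = x + sh p - 1 by ring]
  set U := x + sh p
  unfold PT
  constructor
  · rintro ⟨⟨h1, h2, h3, h4⟩, h5, h6, h7⟩
    refine ⟨by omega, by omega, by omega, by omega, fun h => ?_⟩
    have := D.aw y (by omega) h
    omega
  · rintro ⟨h1, h2, h3, h4, h5⟩
    refine ⟨⟨by omega, by omega, by omega, by omega⟩, fun h => ?_, fun h => ?_, fun h => ?_⟩
    · have := h5 h.2.1; omega
    · have := h5 h.2.1; omega
    · have := h5 h.2.1; omega

/-- **the arcs of the layer tiles** of the left arc; there are no ties on the right wall -/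
structure ArcB (D : Win) (n H : ℤ) (A B : ℤ → ℤ) (p : Bool) (s0 : ℤ) : Prop where
  L : ∀ u v, LyA D p .L u v → u + sh p + 1 = n * ((u + sh p + 1) / n) ∧
    CQ H A B ((u + sh p + 1) / n) (v / n) ∧ ¬ CQ H A B ((u + sh p + 1) / n - 1) (v / n) ∧
    arc D p s0 u v = aL D n s0 (v / n) ∧ arc D p s0 (u - 1) v = aL D n s0 (v / n)
  F : ∀ u v, LyA D p .F u v → v + 1 = n * ((v + 1) / n) ∧
    CQ H A B ((u + sh p) / n) ((v + 1) / n) ∧ ¬ CQ H A B ((u + sh p) / n) ((v + 1) / n - 1) ∧
    arc D p s0 u v = hA D n H A B s0 ((u + sh p) / n) ((v + 1) / n) ∧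
    arc D p s0 u (v - 1) = hA D n H A B s0 ((u + sh p) / n) ((v + 1) / n)
  C : ∀ u v, LyA D p .C u v → v = n * (v / n) ∧
    CQ H A B ((u + sh p) / n) (v / n - 1) ∧ ¬ CQ H A B ((u + sh p) / n) (v / n) ∧
    arc D p s0 u v = hA D n H A B s0 ((u + sh p) / n) (v / n) ∧
    arc D p s0 u (v + 1) = hA D n H A B s0 ((u + sh p) / n) (v / n)
  eL : ∀ Y, 0 ≤ Y → Y + 1 < H → A Y = A (Y + 1) → aL D n s0 Y = aL D n s0 (Y + 1)
  nR : ∀ k, CA D p k → k.1 ≠ Sd.R

lemma ArcB.neR {c : Bool} {s : Sd} {u v : ℤ} (hB : ArcB D n H A B p s0) (h : TieP D p s c u v) : s ≠ Sd.R :=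
  hB.nR _ h.2.1

lemma hA_in (h : CQ H A B X Y) : hA D n H A B s0 X Y = if Y = 0 then aB D s0 else aL D n s0 (Y - 1) := by
  unfold hA; rw [if_pos h]

lemma hA_out (h : ¬ CQ H A B X Y) : hA D n H A B s0 X Y = if Y = H then aT D s0 else aL D n s0 Y := by
  unfold hA; rw [if_neg h]

/-- all boundary edges at a lattice point with two neighbouring cells, not on the right wall, have one arc -/
lemma ArcB.one (hB : ArcB D n H A B p s0) (hT : Two (CQ H A B) X Y)
    (hR : (CQ H A B (X - 1) Y → CQ H A B X Y) ∧ (CQ H A B (X - 1) (Y - 1) → CQ H A B X (Y - 1))) : ∃ j,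
    (¬ (CQ H A B X (Y - 1) ↔ CQ H A B (X - 1) (Y - 1)) → aL D n s0 (Y - 1) = j) ∧
    (¬ (CQ H A B X Y ↔ CQ H A B (X - 1) Y) → aL D n s0 Y = j) ∧
    (¬ (CQ H A B (X - 1) Y ↔ CQ H A B (X - 1) (Y - 1)) → hA D n H A B s0 (X - 1) Y = j) ∧
    (¬ (CQ H A B X Y ↔ CQ H A B X (Y - 1)) → hA D n H A B s0 X Y = j) := by
  obtain ⟨r1, r2⟩ := hR
  by_cases q1 : CQ H A B (X - 1) (Y - 1) <;> by_cases q2 : CQ H A B X (Y - 1) <;>
    by_cases q3 : CQ H A B (X - 1) Y <;> by_cases q4 : CQ H A B X Y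
  · exact ⟨0, fun h => absurd (iff_of_true q2 q1) h, fun h => absurd (iff_of_true q4 q3) h,
      fun h => absurd (iff_of_true q3 q1) h, fun h => absurd (iff_of_true q4 q2) h⟩
  · exact absurd (r1 q3) q4
  · -- `(X - 1, Y)` is out
    refine ⟨aL D n s0 Y, fun h => absurd (iff_of_true q2 q1) h, fun h => rfl,
      fun h => ?_, fun h => absurd (iff_of_true q4 q2) h⟩
    rw [hA_out q3]
    unfold CQ at q4
    rw [if_neg (by omega)]
  · -- ceiling
    refine ⟨hA D n H A B s0 X Y, fun h => absurd (iff_of_true q2 q1) h,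
      fun h => absurd (iff_of_false q4 q3) h, fun h => ?_, fun h => rfl⟩
    rw [hA_out q3, hA_out q4]
  · exact absurd (r2 q1) q2
  · exact absurd (r2 q1) q2
  · exact absurd (r2 q1) q2
  · exact absurd (r2 q1) q2
  · -- `(X - 1, Y - 1)` is out
    refine ⟨aL D n s0 (Y - 1), fun h => rfl, fun h => absurd (iff_of_true q4 q3) h,
      fun h => ?_, fun h => absurd (iff_of_true q4 q2) h⟩
    rw [hA_in q3]
    unfold CQ at q2
    rw [if_neg (by omega)]
  · exact absurd (r1 q3) q4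
  · -- left wall
    refine ⟨aL D n s0 Y, fun h => ?_, fun h => rfl, fun h => absurd (iff_of_false q3 q1) h,
      fun h => absurd (iff_of_true q4 q2) h⟩
    unfold CQ at q1 q2 q3 q4
    have := hB.eL (Y - 1) (by omega) (by omega) (by rw [sub_add_cancel]; omega)
    rwa [sub_add_cancel] at this
  · exfalso
    unfold Two at hT
    tauto
  · -- floor
    refine ⟨hA D n H A B s0 X Y, fun h => absurd (iff_of_false q2 q1) h,
      fun h => absurd (iff_of_true q4 q3) h, fun h => ?_, fun h => rfl⟩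
    rw [hA_in q3, hA_in q4]
  · exfalso
    unfold Two at hT
    tauto
  · exfalso
    unfold Two at hT
    tauto
  · exfalso
    unfold Two at hT
    tauto

/-- **the field `cont`** -/
lemma ArcB.cont (hB : ArcB D n H A B p s0) (C : Coarse D n H A B) (X Y : ℤ) (hT : Two (CQ H A B) X Y)
    (hE : AtE (AVi D n H A B s0 i) (AHi D n H A B s0 i) X Y) :
    FullE (CQ H A B) (AVi D n H A B s0 i) (AHi D n H A B s0 i) X Y := by
  have bd : ∀ Z, CQ H A B (X - 1) Z → ¬ CQ H A B X Z → X = B Z := fun Z h1 h2 => by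
    unfold CQ at h1 h2; omega
  have hR : (CQ H A B (X - 1) Y → CQ H A B X Y) ∧ (CQ H A B (X - 1) (Y - 1) → CQ H A B X (Y - 1)) := by
    constructor
    · intro q3
      by_contra q4
      have e := bd Y q3 q4
      have q2 : ¬ CQ H A B X (Y - 1) := fun h => by
        have := C.B_eq (X := Y - 1) (Y := Y) h.1 h.2.1 q3.1 q3.2.1
        unfold CQ at h; omega
      rcases hE with h | h | h | h
      · exact q2 h.1.1
      · exact q4 h.1.1
      · by_cases q1 : CQ H A B (X - 1) (Y - 1)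
        · exact h.1 (iff_of_true q3 q1)
        · unfold Two at hT; tauto
      · exact h.1 (iff_of_false q4 q2)
    · intro q1
      by_contra q2
      have e := bd (Y - 1) q1 q2
      have q4 : ¬ CQ H A B X Y := fun h => by
        have := C.B_eq (X := Y - 1) (Y := Y) q1.1 q1.2.1 h.1 h.2.1
        unfold CQ at h; omega
      rcases hE with h | h | h | h
      · exact q2 h.1.1
      · exact q4 h.1.1
      · by_cases q3 : CQ H A B (X - 1) Y
        · exact h.1 (iff_of_true q3 q1)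
        · unfold Two at hT; tauto
      · exact h.1 (iff_of_false q4 q2)
  obtain ⟨j, h1, h2, h3, h4⟩ := hB.one hT hR
  have lft : ∀ Z, (CQ H A B (X - 1) Z → CQ H A B X Z) → ¬ (CQ H A B X Z ↔ CQ H A B (X - 1) Z) →
      CQ H A B X Z ∧ ¬ CQ H A B (X - 1) Z := fun Z a b => by tauto
  have hj : j = i := by
    rcases hE with h | h | h | h
    · rw [← h1 fun e => h.1.2 (e.1 h.1.1)]; exact h.2
    · rw [← h2 fun e => h.1.2 (e.1 h.1.1)]; exact h.2
    · rw [← h3 h.1]; exact h.2
    · rw [← h4 h.1]; exact h.2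
  subst hj
  exact ⟨fun h => ⟨lft _ hR.2 h, h1 h⟩, fun h => ⟨lft _ hR.1 h, h2 h⟩, fun h => ⟨h, h3 h⟩,
    fun h => ⟨h, h4 h⟩⟩

end Pool.Agent.H95.W.N
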