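import Mathlib
import Pool.Agent.H95.W.N.GeoB
import Pool.Agent.H31.Sp.FrameB

set_option autoImplicit false
open Finset

/-! # Coarse windows: ties (port of `H31/Sp/GeoC`)

`tieL` etc. : ties from two layer tiles whose arcs (tile and outer neighbour) are of the colour `c`.
`ArcB.vtL` etc. : the fields `tL`, .. of `Geo`. -/

namespace Pool.Agent.H95.W.N

open Pool.Agent.H33.Q1 (lt tt tt_lt)
open Pool.Agent.H54.W (Win)
open Pool.Agent.H72.W.N
open Pool.Agent.H31.Sp (CQ pc pc_cases)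
open Pool.Agent.H42.Sp (Sd)
open Pool.Agent.H13.R45 (gp)
open Pool.Agent.H39.Q1 (TF mem_TF)

variable {D : Win} {n H s0 i : ℤ} {A B : ℤ → ℤ} {p : Bool} {x y X Y Z u v : ℤ} {c : Bool} {s : Sd}

/-- arcs of a layer tile and of its outer neighbour -/
def Ar (D : Win) (p : Bool) (s0 i : ℤ) (s : Sd) (u v : ℤ) : Prop :=
  arc D p s0 u v = i ∧ arc D p s0 (u - (dr s).1) (v - (dr s).2) = i

lemma Ar.col (h : Ar D p s0 i s u v) : natc D p u v = colp D i ∧
    natc D p (u - (dr s).1) (v - (dr s).2) = colp D i :=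
  ⟨by rw [← h.1, colp_arc], by rw [← h.2, colp_arc]⟩

lemma col_iff {q : Bool} (h : q = c) (h2 : (x + y) % 2 = 1 ↔ c = true) :
    (x + y) % 2 = 1 ↔ q = true := by rw [h]; exact h2

lemma tieL (h1 : LyA D p .L (x - 1) (y - 1)) (h2 : LyA D p .L (x - 1) y)
    (a1 : Ar D p s0 i .L (x - 1) (y - 1)) (a2 : Ar D p s0 i .L (x - 1) y)
    (hp : (x + y) % 2 = pc (colp D i)) : ∃ u v, TieP D p .L (colp D i) u v ∧
      bt .L (colp D i) (u, v) = (x, y) ∧ Ar D p s0 i .L u v := by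
  have c1 := a1.col
  have c2 := a2.col
  simp only [dr, sub_zero] at c1 c2
  have hq : (x - 1 + y) % 2 = 1 ↔ colp D i = true := by
    rcases pc_cases (c := colp D i) with ⟨e, e'⟩ | ⟨e, e'⟩ <;> rw [e'] at hp <;> rw [e] <;>
      simp <;> omega
  have hCA : CA D p (.L, (x - 1, y)) :=
    ⟨h1, h2, col_iff c2.1 hq, col_iff c2.2 hq, col_iff c1.1 hq, col_iff c1.2 hq⟩
  rcases pc_cases (c := colp D i) with ⟨e, e'⟩ | ⟨e, e'⟩
  · rw [e'] at hp
    refine ⟨x - 1, y, ⟨by omega, ?_, ?_⟩, ?_, a2⟩ <;> rw [e] <;> simp only [gt, bt]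
    · exact hCA
    · rw [e] at hq
      simpa using hq
    · exact Prod.ext (by simp) rfl
  · rw [e'] at hp
    refine ⟨x - 1, y - 1, ⟨by omega, ?_, ?_⟩, ?_, a1⟩ <;> rw [e] <;>
      simp only [gt, bt, sub_add_cancel]
    · exact hCA
    · rw [e] at hq
      simpa using hq

lemma tieF (h1 : LyA D p .F (x - 1) (y - 1)) (h2 : LyA D p .F x (y - 1))
    (a1 : Ar D p s0 i .F (x - 1) (y - 1)) (a2 : Ar D p s0 i .F x (y - 1))
    (hp : (x + y) % 2 = pc (colp D i)) : ∃ u v, TieP D p .F (colp D i) u v ∧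
      bt .F (colp D i) (u, v) = (x, y) ∧ Ar D p s0 i .F u v := by
  have c1 := a1.col
  have c2 := a2.col
  simp only [dr, sub_zero] at c1 c2
  have hq : (x + (y - 1)) % 2 = 1 ↔ colp D i = true := by
    rcases pc_cases (c := colp D i) with ⟨e, e'⟩ | ⟨e, e'⟩ <;> rw [e'] at hp <;> rw [e] <;>
      simp <;> omega
  have hCA : CA D p (.F, (x, y - 1)) :=
    ⟨h1, h2, col_iff c2.1 hq, col_iff c1.1 hq, col_iff c2.2 hq, col_iff c1.2 hq⟩
  rcases pc_cases (c := colp D i) with ⟨e, e'⟩ | ⟨e, e'⟩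
  · rw [e'] at hp
    refine ⟨x, y - 1, ⟨by omega, ?_, ?_⟩, ?_, a2⟩ <;> rw [e] <;>
      simp only [gt, bt, sub_add_cancel]
    · exact hCA
    · rw [e] at hq
      simpa using hq
  · rw [e'] at hp
    refine ⟨x - 1, y - 1, ⟨by omega, ?_, ?_⟩, ?_, a1⟩ <;> rw [e] <;>
      simp only [gt, bt, sub_add_cancel]
    · exact hCA
    · rw [e] at hq
      simpa using hq

lemma tieC (h1 : LyA D p .C (x - 1) y) (h2 : LyA D p .C x y)
    (a1 : Ar D p s0 i .C (x - 1) y) (a2 : Ar D p s0 i .C x y)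
    (hp : (x + y) % 2 = pc (colp D i)) : ∃ u v, TieP D p .C (colp D i) u v ∧
      bt .C (colp D i) (u, v) = (x, y) ∧ Ar D p s0 i .C u v := by
  have c1 := a1.col
  have c2 := a2.col
  simp only [dr, sub_zero, sub_neg_eq_add] at c1 c2
  have hq : (x + (y + 1)) % 2 = 1 ↔ colp D i = true := by
    rcases pc_cases (c := colp D i) with ⟨e, e'⟩ | ⟨e, e'⟩ <;> rw [e'] at hp <;> rw [e] <;>
      simp <;> omega
  have hCA : CA D p (.C, (x, y + 1)) := by
    refine ⟨?_, ?_, ?_, ?_, ?_, ?_⟩ <;> (try rw [add_sub_cancel_right])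
    · exact h1
    · exact h2
    · exact col_iff c2.2 hq
    · exact col_iff c1.2 hq
    · exact col_iff c2.1 hq
    · exact col_iff c1.1 hq
  rcases pc_cases (c := colp D i) with ⟨e, e'⟩ | ⟨e, e'⟩
  · rw [e'] at hp
    refine ⟨x - 1, y, ⟨by omega, ?_, ?_⟩, ?_, a1⟩ <;> rw [e] <;>
      simp only [gt, bt, sub_add_cancel]
    · exact hCA
    · rw [e] at hq
      simpa using hq
  · rw [e'] at hp
    refine ⟨x, y, ⟨by omega, ?_, ?_⟩, ?_, a2⟩ <;> rw [e] <;> simp only [gt, bt]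
    · exact hCA
    · rw [e] at hq
      simpa using hq

/-- a tie of the arc -/
lemma vti_of (h : ∃ u v, TieP D p s (colp D i) u v ∧ bt s (colp D i) (u, v) = (x, y) ∧
    Ar D p s0 i s u v) (hp : (x + y) % 2 = pc (colp D i)) : Vti D p s0 i x y := by
  obtain ⟨u, v, h1, h2, h3⟩ := h
  refine ⟨hp, lt (u, v), mem_TF.2 ⟨mem_TA.2 ⟨s, _, h1⟩, ?_⟩, by rw [h1.b, h2]⟩
  rw [h1.fm]; exact h3.2

namespace ArcB

variable (hB : ArcB D n H A B p s0)

include hB

lemma sameL (h1 : CQ H A B X Y) (h0 : ¬ CQ H A B (X - 1) Y) (h1' : CQ H A B X Z)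
    (h0' : ¬ CQ H A B (X - 1) Z) (h2 : Y ≤ Z + 1) (h3 : Z ≤ Y + 1) :
    aL D n s0 Z = aL D n s0 Y := by
  unfold CQ at *
  have : Z = Y ∨ Z = Y + 1 ∨ Y = Z + 1 := by omega
  rcases this with rfl | rfl | rfl
  · rfl
  · exact (hB.eL Y (by omega) (by omega) (by omega)).symm
  · exact hB.eL Z (by omega) (by omega) (by omega)

end ArcB

/-- coarse coordinate of a neighbour -/
lemma dv_near (hn : 0 < n) {u : ℤ} (h1 : n * Y - 1 ≤ u) (h2 : u ≤ n * Y + n) (h3 : 2 ≤ n) :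
    Y ≤ u / n + 1 ∧ u / n ≤ Y + 1 := by
  constructor
  · rw [← sub_le_iff_le_add, Int.le_ediv_iff_mul_le hn]
    have : (Y - 1) * n = n * Y - n := by ring
    omega
  · rw [← Int.lt_add_one_iff, Int.ediv_lt_iff_lt_mul hn]
    have : (Y + 1 + 1) * n = n * Y + n + n := by ring
    omega

end Pool.Agent.H95.W.N
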