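import Mathlib
import Pool.Agent.H95.W.N.Dat
import Pool.Agent.H95.W.N.GeoX
import Pool.Agent.H31.Sp.Lab

set_option autoImplicit false
open Finset

/-! # The frames of the walls of a window (class `H54.W.Win`)

Port of `H31/Sp/Lab`; `gtr`, `gvr`, `QF` are helper31's. `lab_eS` : the labels and
the tied vertices of the frame. `ArcB.geoF` : the geometry in the frame. -/

namespace Pool.Agent.H95.W.N

open Pool.Agent.H33.Q1 (lt tt tt_lt)
open Pool.Agent.H54.W (Win)
open Pool.Agent.H72.W.N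
open Pool.Agent.H31.Sp (CQ Ed EdF mem_EdF verS posS pc pc_cases gtr gvr gtr_eq gvr_eq QF Geo Lab)
open Pool.Agent.H42.Sp (Sd)
open Pool.Agent.H13.R45 (gp)
open Pool.Agent.H39.Q1 (TF mem_TF gm tc lm lm_apply mem_lm gm_gm)
open Pool.Agent.H54.Sp (eS dS)
open Pool.Agent.H59.W (VI mem_VI)
open Pool.Agent.Q1.M6e (Lx)

variable {D : Win} {n m H s0 i : ℤ} {A B : ℤ → ℤ} {p : Bool} {x y X Y Z u v : ℤ} {c : Bool} {s : Sd}

/-- **the labels and the tied vertices in the frame** -/
theorem lab_eS : Lab (Lx (colp D) (LaA D p s0 m) i (eS s))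
    (VI (TA D p) (fmA D p s0) (bA D p) i (eS s))
    (fun x y => lt (gtr s (pc (colp D i)) x y) ∈ LaA D p s0 m i)
    (fun x y => Vti D p s0 i (gvr s (pc (colp D i)) x y).1 (gvr s (pc (colp D i)) x y).2) where
  odd := by
    intro l hl
    unfold Lx at hl
    rw [mem_lm] at hl
    have h1 := odd_TB hl
    obtain ⟨a, b⟩ := l
    revert h1
    cases colp D i <;> cases s <;>
      (unfold gm Pool.Agent.H39.Q1.sgb tc eS
       simp only [Bool.false_eq_true, if_false, if_true, Prod.mk_sub_mk]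
       omega)
  mem := by
    intro l hl
    unfold Lx
    rw [mem_lm]
    have h := gtr_eq (s := s) (c := colp D i) hl
    have h2 : gm (eS s) l - tc (colp D i) =
        lt (gtr s (pc (colp D i)) ((l.1 + l.2 - 1) / 2) ((l.2 - l.1 - 1) / 2)) := by
      conv_lhs => rw [← h]
      rw [gm_gm, add_sub_cancel_right]
    rw [h2]
  ver := by
    rintro v ⟨h1, e, h2, h3⟩
    rw [mem_VI]
    refine ⟨e, h2, ?_⟩
    rw [h3]
    exact gvr_eq h1

/-- origin of the frame -/
def zF (p : Bool) (s : Sd) (d : ℤ) : ℤ × ℤ :=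
  match s with
  | .L => (-sh p + d, 0)
  | .R => (-(-sh p + d), -0)
  | .F => (0, -sh p + d)
  | .C => (-0, -(-sh p + d))

/-- vertical edges of the frame -/
def AF (D : Win) (n H : ℤ) (A B : ℤ → ℤ) (s0 i : ℤ) (s : Sd) (X Y : ℤ) : Prop :=
  match s with
  | .L => AVi D n H A B s0 i X Y
  | .R => AVi D n H A B s0 i (-X) (-Y - 1)
  | .F => AHi D n H A B s0 i Y X
  | .C => AHi D n H A B s0 i (-Y - 1) (-X)

/-- **the geometry in the frame** -/
theorem ArcB.geoF (hB : ArcB D n H A B p s0) (C : Coarse D n H A B) (s : Sd) :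
    ∃ AH, Geo n (m - 3) (zF p s (pc (colp D i))) 0 (QF H A B s)
      (fun x y => InP D p (gtr s (pc (colp D i)) x y).1 (gtr s (pc (colp D i)) x y).2)
      (AF D n H A B s0 i s) AH
      (fun x y => lt (gtr s (pc (colp D i)) x y) ∈ LaA D p s0 m i)
      (fun x y => Vti D p s0 i (gvr s (pc (colp D i)) x y).1 (gvr s (pc (colp D i)) x y).2) := by
  have G := (hB.geoX (i := i) (m := m) C).shd
  cases s
  · exact ⟨_, G⟩
  · exact ⟨_, G.neg⟩
  · exact ⟨_, G.swap⟩
  · exact ⟨_, G.neg.swap⟩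

end Pool.Agent.H95.W.N
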