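import Mathlib
import Pool.Agent.H95.W.N.GeoB
import Pool.Agent.H31.Sp.Str

set_option autoImplicit false
open Finset

/-! # The arcs of the layer tiles of the left arc of a coarse window (class `H54.W.Win`)

Successor of `H13/Sp/ArcC`, left arc only. `posL` : all left positions of one row of cells are in one arc. `lyL_arc`,
`lyF_arc`, `lyC_arc` : the layer tiles of the kinds `L`, `F`, `C`, the cells beside them and their arc. `arcB` : the
structure `ArcB` (hypothesis: no tie on the right wall). -/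

namespace Pool.Agent.H95.W.N

open Pool.Agent.H33.Q1 (lt)
open Pool.Agent.H54.W (Win)
open Pool.Agent.H72.W.N
open Pool.Agent.H31.Sp (CQ dv_bd)
open Pool.Agent.H42.Sp (Sd)

variable {D : Win} {n H s0 : ℤ} {A B : ℤ → ℤ} {CL : ℤ → Bool} {p : Bool} {x y z X Y u v : ℤ}

lemma colp_left (h0 : 0 ≤ y) (h1 : y < D.h) : colp D (2 * D.h + 1 - y) = D.cl y := by
  have hh := D.hh
  unfold colp nP
  rw [Int.emod_eq_of_lt (by omega) (by omega), colq_cl (by omega)]
  congr 1
  ring

/-- neighbouring rows of one colour -/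
lemma rep_left1 (hcut : colp D (s0 - 1) ≠ colp D s0) (h0 : 0 ≤ y) (h1 : y + 1 < D.h)
    (hc : D.cl y = D.cl (y + 1)) : rep D s0 (2 * D.h + 1 - (y + 1)) = rep D s0 (2 * D.h + 1 - y) := by
  have e : 2 * D.h + 1 - y = 2 * D.h + 1 - (y + 1) + 1 := by ring
  rw [e, rep_adj hcut]
  rw [← e, colp_left (by omega) (by omega), colp_left h0 (by omega), hc]

/-- the left positions of an interval of rows of one colour -/
lemma rep_leftN (hcut : colp D (s0 - 1) ≠ colp D s0) (h0 : 0 ≤ y) (k : ℕ) (h1 : y + k < D.h)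
    (hc : ∀ v, y ≤ v → v < y + k → D.cl v = D.cl (v + 1)) :
    rep D s0 (2 * D.h + 1 - (y + k)) = rep D s0 (2 * D.h + 1 - y) := by
  induction k with
  | zero => simp
  | succ k ih =>
    push_cast at h1 hc ⊢
    rw [← ih (by omega) fun v h2 h3 => hc v h2 (by omega)]
    have := rep_left1 hcut (y := y + k) (by omega) (by omega) (hc _ (by omega) (by omega))
    rw [← add_assoc]
    exact this

lemma rep_leftZ (hcut : colp D (s0 - 1) ≠ colp D s0) (h0 : 0 ≤ y) (hyz : y ≤ z) (h1 : z < D.h)
    (hc : ∀ v, y ≤ v → v < z → D.cl v = D.cl (v + 1)) :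
    rep D s0 (2 * D.h + 1 - z) = rep D s0 (2 * D.h + 1 - y) := by
  have := rep_leftN hcut h0 (z - y).toNat (by omega) fun v h2 h3 => hc v h2 (by omega)
  rwa [show y + ((z - y).toNat : ℤ) = z by omega] at this

/-- the rows of a cell -/
lemma Coarse.cell (C : Coarse D n H A B) (h0 : 0 ≤ Y) (h1 : Y < H) : 0 ≤ n * Y ∧ n * Y + n ≤ D.h := by
  have hn := C.pos
  have hh := C.hh
  refine ⟨mul_nonneg hn.le h0, ?_⟩
  have : n * (Y + 1) ≤ n * H := mul_le_mul_of_nonneg_left (by omega) hn.le
  have e : n * (Y + 1) = n * Y + n := by ring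
  omega

lemma dv_eq (hn : 0 < n) (h1 : n * Y ≤ y) (h2 : y < n * Y + n) : y / n = Y :=
  Pool.Agent.H31.Sp.cell_eq hn h1 h2

section CC

variable (hC : CoarseC D n H A B CL) (hcut : colp D (s0 - 1) ≠ colp D s0)

include hC hcut

/-- **The left positions of one row of cells.** -/
theorem posL (h0 : 0 ≤ y) (h1 : y < D.h) : rep D s0 (2 * D.h + 1 - y) = aL D n s0 (y / n) := by
  have hn := hC.toCoarse.pos
  have hn8 := hC.toCoarse.hn
  obtain ⟨r0, r1⟩ := hC.toCoarse.row h0 h1
  obtain ⟨c0, c1⟩ := hC.toCoarse.cell r0 r1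
  have hd := dv_bd hn y
  have col : ∀ v, n * (y / n) ≤ v → v + 1 < n * (y / n) + n → D.cl v = D.cl (v + 1) := fun v k1 k2 => by
    rw [hC.cl v (by omega) (by omega), hC.cl (v + 1) (by omega) (by omega),
      dv_eq hn k1 (by omega), dv_eq hn (by omega : n * (y / n) ≤ v + 1) (by omega)]
  unfold aL
  rcases le_total y (n * (y / n) + 1) with h6 | h6
  · exact (rep_leftZ hcut h0 h6 (by omega) fun v k1 k2 => col v (by omega) (by omega)).symm
  · exact rep_leftZ hcut (by omega) h6 h1 fun v k1 k2 => col v (by omega) (by omega)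

end CC

section C

variable (C : Coarse D n H A B)

include C

/-- an inner row of a cell -/
lemma Coarse.a_in (h0 : 0 ≤ y) (h1 : y < D.h) (h2 : n * (y / n) < y) (h3 : y + 1 < n * (y / n) + n) :
    D.a y = n * A (y / n) := by
  have e := Int.emod_add_mul_ediv y n
  rcases C.a y h0 h1 with h | ⟨-, ⟨h, -⟩ | ⟨h, -⟩⟩
  · exact h
  · omega
  · omega

/-- a straight part of the left side -/
theorem aL_succ (hcut : colp D (s0 - 1) ≠ colp D s0) (h0 : 0 ≤ Y) (h1 : Y + 1 < H) (hA : A Y = A (Y + 1)) :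
    aL D n s0 (Y + 1) = aL D n s0 Y := by
  have hn := C.pos
  have hn8 := C.hn
  obtain ⟨c0, c1⟩ := C.cell h0 (by omega)
  obtain ⟨d0, d1⟩ := C.cell (Y := Y + 1) (by omega) h1
  have e3 : n * (Y + 1) = n * Y + n := by ring
  have key : ∀ v, n * Y + 1 ≤ v → v ≤ n * (Y + 1) + 1 → D.a v = n * A Y := by
    intro v k1 k2
    have em := Int.emod_add_mul_ediv v n
    by_cases c : v < n * Y + n
    · have e : v / n = Y := dv_eq hn (by omega) (by omega)
      rcases C.a v (by omega) (by omega) with g | ⟨g, g' | g'⟩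
      · rw [g, e]
      · rw [e] at g'; omega
      · rw [e] at g' em; omega
    · have e : v / n = Y + 1 := dv_eq hn (by omega) (by omega)
      rcases C.a v (by omega) (by omega) with g | ⟨g, g' | g'⟩
      · rw [g, e, hA]
      · rw [e] at g' em; omega
      · rw [e, add_sub_cancel_right] at g'; omega
  unfold aL
  refine rep_leftZ hcut (by omega) (by omega) (by omega) fun v k1 k2 => ?_
  refine D.scl v (by omega) (by omega) ?_
  rw [key v k1 (by omega), key (v + 1) (by omega) (by omega)]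

lemma lyL_a (h : LyP D .L u v) : D.a v = n * A (v / n) := by
  obtain ⟨h0, h1, h2, h3, h4⟩ := h
  have hn := C.pos
  have hn8 := C.hn
  have hd := dv_bd hn v
  have em := Int.emod_add_mul_ediv v n
  obtain ⟨r0, r1⟩ := C.row h0 h1
  rcases C.a v h0 h1 with g | ⟨g, ⟨g1, g2, g3⟩ | ⟨g1, g2, g3⟩⟩
  · exact g
  · exfalso
    obtain ⟨c0, c1⟩ := C.cell (Y := v / n + 1) (by omega) g2
    have e3 : n * (v / n + 1) = n * (v / n) + n := by ring
    have e : (v + 1) / n = v / n + 1 := dv_eq hn (by omega) (by omega)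
    have k2 := (C.a_le (y := v + 1) (by omega) (by omega)).2
    rw [e] at k2
    have := h4 (by omega)
    have k3 : n * (A (v / n + 1) + 1) ≤ n * A (v / n) := mul_le_mul_of_nonneg_left (by omega) hn.le
    have k4 : n * (A (v / n + 1) + 1) = n * A (v / n + 1) + n := by ring
    omega
  · exfalso
    obtain ⟨c0, c1⟩ := C.cell (Y := v / n - 1) (by omega) (by omega)
    have e3 : n * (v / n - 1) = n * (v / n) - n := by ring
    have e : (v - 1) / n = v / n - 1 := dv_eq hn (by omega) (by omega)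
    have k2 := (C.a_le (y := v - 1) (by omega) (by omega)).2
    rw [e] at k2
    have := h3 (by omega)
    have k3 : n * (A (v / n - 1) + 1) ≤ n * A (v / n) := mul_le_mul_of_nonneg_left (by omega) hn.le
    have k4 : n * (A (v / n - 1) + 1) = n * A (v / n - 1) + n := by ring
    omega

/-- a large drop -/
lemma Coarse.drop2 (h0 : 0 ≤ v) (h1 : v + 1 < D.h) (h : D.a (v + 1) + 1 < D.a v) :
    v + 1 = n * (v / n) + n ∧ (v + 1) / n = v / n + 1 ∧ A (v / n + 1) < A (v / n) ∧
      D.a (v + 1) = n * A (v / n + 1) := by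
  have hn := C.pos
  have hn8 := C.hn
  have hd := dv_bd hn v
  have a1 := C.a_le h0 (by omega)
  have a2 := C.a_le (y := v + 1) (by omega) h1
  obtain ⟨r0, r1⟩ := C.row h0 (by omega)
  by_cases hv : v + 1 < n * (v / n) + n
  · exfalso
    rw [dv_eq hn (by omega : n * (v / n) ≤ v + 1) hv] at a2
    omega
  · have e1 : v + 1 = n * (v / n) + n := by omega
    have e3 : n * (v / n + 1) = n * (v / n) + n := by ring
    have e2 : (v + 1) / n = v / n + 1 := dv_eq hn (by omega) (by omega)
    rw [e2] at a2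
    have hA : A (v / n + 1) < A (v / n) := by
      by_contra hc
      have : n * A (v / n) ≤ n * A (v / n + 1) := mul_le_mul_of_nonneg_left (by omega) hn.le
      omega
    refine ⟨e1, e2, hA, ?_⟩
    have em := Int.emod_add_mul_ediv (v + 1) n
    rcases C.a (v + 1) (by omega) h1 with g | ⟨g, g' | g'⟩
    · rw [g, e2]
    · rw [e2] at g' em; omega
    · rw [e2, add_sub_cancel_right] at g'; omega

/-- a large rise -/
lemma Coarse.rise2 (h0 : 0 < v) (h1 : v < D.h) (h : D.a (v - 1) + 1 < D.a v) :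
    v = n * (v / n) ∧ (v - 1) / n = v / n - 1 ∧ A (v / n - 1) < A (v / n) ∧ 0 < v / n ∧
      D.a (v - 1) = n * A (v / n - 1) := by
  have hn := C.pos
  have hn8 := C.hn
  have hd := dv_bd hn v
  have a1 := C.a_le (by omega) h1
  have a2 := C.a_le (y := v - 1) (by omega) (by omega)
  obtain ⟨r0, r1⟩ := C.row (y := v) (by omega) h1
  by_cases hv : n * (v / n) ≤ v - 1
  · exfalso
    rw [dv_eq hn hv (by omega)] at a2
    omega
  · have e1 : v = n * (v / n) := by omega
    have e3 : n * (v / n - 1) = n * (v / n) - n := by ring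
    have e2 : (v - 1) / n = v / n - 1 := dv_eq hn (by omega) (by omega)
    have hpos : 0 < v / n := by
      by_contra hc
      have : v / n = 0 := by omega
      rw [this, mul_zero] at e1
      omega
    rw [e2] at a2
    have hA : A (v / n - 1) < A (v / n) := by
      by_contra hc
      have : n * A (v / n) ≤ n * A (v / n - 1) := mul_le_mul_of_nonneg_left (by omega) hn.le
      omega
    refine ⟨e1, e2, hA, hpos, ?_⟩
    have em := Int.emod_add_mul_ediv (v - 1) n
    rcases C.a (v - 1) (by omega) (by omega) with g | ⟨g, g' | g'⟩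
    · rw [g, e2]
    · rw [e2, sub_add_cancel] at g'; omega
    · rw [e2] at g' em; omega

end C

section CC2

variable (hC : CoarseC D n H A B CL) (hcut : colp D (s0 - 1) ≠ colp D s0)

include hC hcut

/-- the arc of a tile to the left of its row -/
lemma arc_left (h0 : 0 ≤ v) (h1 : v < D.h) (hu : u < D.a v) : arc D p s0 u v = aL D n s0 (v / n) := by
  unfold arc ps
  rw [if_neg (by omega), if_neg (by omega), if_pos hu]
  exact posL hC hcut h0 h1

omit hC hcut in
lemma arc_bot (h0 : v < 0) : arc D p s0 u v = aB D s0 := by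
  unfold arc ps
  rw [if_pos h0]
  rfl

omit hC hcut in
lemma arc_top (h0 : D.h ≤ v) : arc D p s0 u v = aT D s0 := by
  have := D.hh
  unfold arc ps
  rw [if_neg (by omega), if_pos h0]
  rfl

/-- **Layer tiles at the left.** -/
theorem lyL_arc (h : LyA D p .L u v) : u + sh p + 1 = n * ((u + sh p + 1) / n) ∧
    CQ H A B ((u + sh p + 1) / n) (v / n) ∧ ¬ CQ H A B ((u + sh p + 1) / n - 1) (v / n) ∧
    arc D p s0 u v = aL D n s0 (v / n) ∧ arc D p s0 (u - 1) v = aL D n s0 (v / n) := by
  have C := hC.toCoarse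
  have hn := C.pos
  have ha := lyL_a C h
  obtain ⟨h0, h1, h2, h3, h4⟩ := h
  obtain ⟨r0, r1⟩ := C.row h0 h1
  have hs := sh_nonneg p
  rw [h2, ha, Int.mul_ediv_cancel_left _ hn.ne']
  refine ⟨rfl, ⟨r0, r1, le_rfl, C.AB _ r0 r1⟩, fun h => ?_, arc_left hC hcut h0 h1 (by omega),
    arc_left hC hcut h0 h1 (by omega)⟩
  have := h.2.2.1
  omega

/-- **Layer tiles below.** -/
theorem lyF_arc (h : LyA D p .F u v) : v + 1 = n * ((v + 1) / n) ∧
    CQ H A B ((u + sh p) / n) ((v + 1) / n) ∧ ¬ CQ H A B ((u + sh p) / n) ((v + 1) / n - 1) ∧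
    arc D p s0 u v = hA D n H A B s0 ((u + sh p) / n) ((v + 1) / n) ∧
    arc D p s0 u (v - 1) = hA D n H A B s0 ((u + sh p) / n) ((v + 1) / n) := by
  have C := hC.toCoarse
  have hn := C.pos
  have hn8 := C.hn
  have hs := sh_nonneg p
  obtain ⟨h0, h1, h2, h3, h4⟩ := h
  by_cases hv : v = -1
  · subst hv
    rw [neg_add_cancel] at h1 h2 ⊢
    rw [Int.zero_ediv]
    obtain ⟨r0, r1⟩ := C.row (y := 0) le_rfl h1
    rw [Int.zero_ediv] at r1
    have ha : D.a 0 = n * A 0 := by
      rcases C.a 0 le_rfl h1 with g | ⟨g, g' | g'⟩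
      · rwa [Int.zero_ediv] at g
      · rw [Int.zero_emod] at g'; omega
      · rw [Int.zero_ediv] at g'; omega
    have hb := C.b 0 le_rfl h1
    rw [Int.zero_ediv] at hb
    have hq : CQ H A B ((u + sh p) / n) 0 := by
      refine ⟨le_rfl, r1, ?_, ?_⟩
      · rw [Int.le_ediv_iff_mul_le hn, mul_comm]; omega
      · rw [Int.ediv_lt_iff_lt_mul hn, mul_comm]; omega
    rw [hA_in hq, if_pos rfl]
    refine ⟨by simp, hq, fun h => ?_, arc_bot (by omega), arc_bot (by omega)⟩
    have := h.1
    omega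
  · have hv0 : 0 ≤ v := by omega
    have k4 := h4 hv0
    obtain ⟨e1, e2, hA, ea⟩ := C.drop2 hv0 h1 (by omega)
    obtain ⟨r0, r1⟩ := C.row hv0 (by omega)
    obtain ⟨c0, c1⟩ := C.cell r0 r1
    obtain ⟨r2, r3⟩ := C.row (y := v + 1) (by omega) h1
    have hb := C.b (v + 1) (by omega) h1
    have al := C.a_le hv0 (by omega)
    rw [e2] at r2 r3 hb ⊢
    have hq : CQ H A B ((u + sh p) / n) (v / n + 1) := by
      refine ⟨r2, r3, ?_, ?_⟩
      · rw [Int.le_ediv_iff_mul_le hn, mul_comm]; omega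
      · rw [Int.ediv_lt_iff_lt_mul hn, mul_comm]; omega
    rw [hA_in hq, if_neg (by omega), add_sub_cancel_right]
    have ev : (v - 1) / n = v / n := dv_eq hn (by omega) (by omega)
    have ai := C.a_in (y := v - 1) (by omega) (by omega) (by rw [ev]; omega) (by rw [ev]; omega)
    rw [ev] at ai
    refine ⟨by rw [e1]; ring, hq, fun h => ?_, arc_left hC hcut hv0 (by omega) (by omega), ?_⟩
    · have h5 := h.2.2.1
      rw [Int.le_ediv_iff_mul_le hn, mul_comm] at h5
      omega
    · rw [← ev]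
      exact arc_left hC hcut (by omega) (by omega) (by omega)

/-- **Layer tiles above.** -/
theorem lyC_arc (h : LyA D p .C u v) : v = n * (v / n) ∧
    CQ H A B ((u + sh p) / n) (v / n - 1) ∧ ¬ CQ H A B ((u + sh p) / n) (v / n) ∧
    arc D p s0 u v = hA D n H A B s0 ((u + sh p) / n) (v / n) ∧
    arc D p s0 u (v + 1) = hA D n H A B s0 ((u + sh p) / n) (v / n) := by
  have C := hC.toCoarse
  have hn := C.pos
  have hn8 := C.hn
  have hs := sh_nonneg p
  obtain ⟨h0, h1, h2, h3, h4⟩ := h
  by_cases hv : v = D.h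
  · subst hv
    have hh := C.hh
    have eH : D.h / n = H := by rw [hh]; exact Int.mul_ediv_cancel_left _ hn.ne'
    have hH := C.HH
    obtain ⟨c0, c1⟩ := C.cell (Y := H - 1) (by omega) (by omega)
    have e3 : n * (H - 1) = n * H - n := by ring
    have ev : (D.h - 1) / n = H - 1 := dv_eq hn (by omega) (by omega)
    have em := Int.emod_add_mul_ediv (D.h - 1) n
    have ha : D.a (D.h - 1) = n * A (H - 1) := by
      rcases C.a (D.h - 1) (by omega) (by omega) with g | ⟨g, g' | g'⟩
      · rwa [ev] at g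
      · rw [ev] at g'; omega
      · rw [ev] at g' em; omega
    have hb := C.b (D.h - 1) (by omega) (by omega)
    rw [ev] at hb
    have hq : CQ H A B ((u + sh p) / n) (H - 1) := by
      refine ⟨by omega, by omega, ?_, ?_⟩
      · rw [Int.le_ediv_iff_mul_le hn, mul_comm]; omega
      · rw [Int.ediv_lt_iff_lt_mul hn, mul_comm]; omega
    have hnq : ¬ CQ H A B ((u + sh p) / n) H := fun h => by have := h.2.1; omega
    rw [eH, hA_out hnq, if_pos rfl]
    exact ⟨hh, hq, hnq, arc_top le_rfl, arc_top (by omega)⟩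
  · have k4 := h4 (by omega)
    obtain ⟨e1, e2, hA, hpos, ea⟩ := C.rise2 (v := v) (by omega) (by omega) (by omega)
    obtain ⟨r0, r1⟩ := C.row (y := v) (by omega) (by omega)
    obtain ⟨c0, c1⟩ := C.cell r0 r1
    have hb := C.b (v - 1) (by omega) (by omega)
    have al := C.a_le (y := v) (by omega) (by omega)
    rw [e2] at hb
    have hq : CQ H A B ((u + sh p) / n) (v / n - 1) := by
      refine ⟨by omega, by omega, ?_, ?_⟩
      · rw [Int.le_ediv_iff_mul_le hn, mul_comm]; omega
      · rw [Int.ediv_lt_iff_lt_mul hn, mul_comm]; omega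
    have hnq : ¬ CQ H A B ((u + sh p) / n) (v / n) := fun h => by
      have h5 := h.2.2.1
      rw [Int.le_ediv_iff_mul_le hn, mul_comm] at h5
      omega
    have ev : (v + 1) / n = v / n := dv_eq hn (by omega) (by omega)
    have ai := C.a_in (y := v + 1) (by omega) (by omega) (by rw [ev]; omega) (by rw [ev]; omega)
    rw [ev] at ai
    rw [hA_out hnq, if_neg (by omega)]
    refine ⟨e1, hq, hnq, arc_left hC hcut (by omega) (by omega) (by omega), ?_⟩
    rw [← ev]
    exact arc_left hC hcut (by omega) (by omega) (by omega)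

/-- **the arcs of the layer tiles of the left arc** -/
theorem arcB (hR : ∀ k, CA D p k → k.1 ≠ Sd.R) : ArcB D n H A B p s0 where
  L := fun _ _ h => lyL_arc hC hcut h
  F := fun _ _ h => lyF_arc hC hcut h
  C := fun _ _ h => lyC_arc hC hcut h
  eL := fun _ h0 h1 h => (aL_succ hC.toCoarse hcut h0 h1 h).symm
  nR := hR

end CC2

end Pool.Agent.H95.W.N
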