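import Mathlib
import Pool.Agent.H95.W.N.Lab
import Pool.Agent.H95.W.N.ArcC
import Pool.Agent.H31.Sp.WeD

set_option autoImplicit false
open Finset

/-! # The walls of the left arc of a coarse window and their ends (class `H54.W.Win`)

Successor of `H31/Sp/WeD`. `hqD` : extreme tie points exist. `weD` : helper59's `WallE` for all walls of the left
arc. -/

namespace Pool.Agent.H95.W.N

open Pool.Agent.H33.Q1 (lt tt tt_lt)
open Pool.Agent.H54.W (Win)
open Pool.Agent.H72.W.N
open Pool.Agent.H31.Sp (CQ Ed EdF mem_EdF verS posS pc pc_cases gtr gvr gtr_eq gvr_eq QF Geo Lab LL LR LF LC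
  LL_sh HtF xE nE sE loF hiF XF QF_XF)
open Pool.Agent.H42.Sp (Sd)
open Pool.Agent.H13.R45 (gp)
open Pool.Agent.H39.Q1 (TF mem_TF gm tc lm lm_apply mem_lm gm_gm)
open Pool.Agent.H54.Sp (eS dS)
open Pool.Agent.H59.W (VI mem_VI)
open Pool.Agent.H59.Q1 (WallE)
open Pool.Agent.Q1.M6e (Lx)

variable {D : Win} {n m H s0 i : ℤ} {A B : ℤ → ℤ} {p : Bool} {x y X Y Z u v : ℤ} {c : Bool} {s : Sd}
  {CL : ℤ → Bool} {w : Sd × ℤ × ℤ} {d lo hi Dd : ℤ}

/-- layer tiles of the frame -/
lemma LL_gtr : LL (fun x y => InP D p (gtr s d x y).1 (gtr s d x y).2) x y ↔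
    LyA D p s (gtr s d x y).1 (gtr s d x y).2 := by
  cases s
  · rw [← lyL]
    exact LL_sh
  · rw [← lyR]
    unfold LL LR gtr
    simp only
    rw [show -(x + 1) - 1 - d = -x - 1 - d - 1 by ring, show -(y + 1) - 1 = -y - 1 - 1 by ring,
      show -(y - 1) - 1 = -y - 1 + 1 by ring]
    tauto
  · rw [← lyF]
    unfold LL LF gtr
    simp only
    rw [show y + 1 - d = y - d + 1 by ring, show y - 1 - d = y - d - 1 by ring]
  · rw [← lyC]
    unfold LL LC gtr
    simp only
    rw [show -(x + 1) - 1 = -x - 1 - 1 by ring, show -(y + 1) - 1 - d = -y - 1 - d - 1 by ring,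
      show -(y - 1) - 1 - d = -y - 1 - d + 1 by ring]
    tauto

variable (n p d) in
/-- line of the edge in the frame -/
def cF (w : Sd × ℤ × ℤ) : ℤ :=
  match w.1 with
  | .L => lnW n p w + d
  | .R => -(lnW n p w + d)
  | .F => lnW n p w
  | .C => -lnW n p w

variable (n p d) in
/-- lower end of the edge in the frame -/
def bF (w : Sd × ℤ × ℤ) : ℤ :=
  match w.1 with
  | .L => bW n p w
  | .R => -bW n p w - n
  | .F => bW n p w + d
  | .C => -bW n p w - n - d

lemma htF_of (h : HtW D n p w lo hi) :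
    HtF (fun x y => InP D p (gtr w.1 d x y).1 (gtr w.1 d x y).2) n (cF n p d w) (bF n p d w)
      (loF d w.1 lo hi) (hiF d w.1 lo hi) := by
  obtain ⟨h1, h2, h3, h4, h5⟩ := h
  obtain ⟨s, X, Y⟩ := w
  cases s
  · refine ⟨h1, h2, h3, h4, fun y g1 g2 => ?_⟩
    have := h5 y g1 g2
    simp only [LL_gtr]
    unfold gtr cF loF hiF
    unfold tlW at this
    simp only at this ⊢
    rw [show lnW n p (Sd.L, X, Y) + d - 1 - d = lnW n p (Sd.L, X, Y) - 1 by ring]
    exact this
  · unfold cF bF loF hiF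
    simp only
    refine ⟨by omega, by omega, by omega, by omega, fun y g1 g2 => ?_⟩
    have := h5 (-y) (by omega) (by omega)
    simp only [LL_gtr]
    unfold gtr
    unfold tlW at this
    simp only at this ⊢
    rw [show -(-(lnW n p (Sd.R, X, Y) + d) - 1) - 1 - d = lnW n p (Sd.R, X, Y) by ring,
      show -(y - 1) - 1 = -y by ring]
    rw [and_comm, this]
    omega
  · unfold cF bF loF hiF
    simp only
    refine ⟨by omega, by omega, by omega, by omega, fun y g1 g2 => ?_⟩
    have := h5 (y - d) (by omega) (by omega)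
    simp only [LL_gtr]
    unfold gtr
    unfold tlW at this
    simp only at this ⊢
    rw [show y - 1 - d = y - d - 1 by ring, this]
    omega
  · unfold cF bF loF hiF
    simp only
    refine ⟨by omega, by omega, by omega, by omega, fun y g1 g2 => ?_⟩
    have := h5 (-y - d) (by omega) (by omega)
    simp only [LL_gtr]
    unfold gtr
    unfold tlW at this
    simp only at this ⊢
    rw [show -(-lnW n p (Sd.C, X, Y) - 1) - 1 = lnW n p (Sd.C, X, Y) by ring,
      show -(y - 1) - 1 - d = -y - d by ring, show -y - 1 - d = -y - d - 1 by ring]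
    rw [and_comm, this]
    omega

lemma htW_of (h : HtF (fun x y => InP D p (gtr w.1 0 x y).1 (gtr w.1 0 x y).2) n (cF n p 0 w)
    (bF n p 0 w) (loF 0 w.1 lo hi) (hiF 0 w.1 lo hi)) : HtW D n p w lo hi := by
  obtain ⟨h1, h2, h3, h4, h5⟩ := h
  obtain ⟨s, X, Y⟩ := w
  simp only [LL_gtr] at h5
  cases s
  · refine ⟨h1, h2, h3, h4, fun y g1 g2 => ?_⟩
    have := h5 y g1 g2
    unfold gtr cF loF hiF at this
    unfold tlW
    simp only [sub_zero, add_zero] at this ⊢
    exact this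
  · simp only [cF, bF, loF, hiF, add_zero] at h1 h2 h3 h4 h5
    refine ⟨by omega, by omega, by omega, by omega, fun y g1 g2 => ?_⟩
    have := h5 (-y) (by omega) (by omega)
    unfold gtr at this
    unfold tlW
    simp only at this ⊢
    rw [show -(-lnW n p (Sd.R, X, Y) - 1) - 1 - 0 = lnW n p (Sd.R, X, Y) by ring,
      show -(-y - 1) - 1 = y by ring, show - -y - 1 = y - 1 by ring] at this
    rw [and_comm, this]
    omega
  · simp only [cF, bF, loF, hiF, add_zero] at h1 h2 h3 h4 h5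
    refine ⟨by omega, by omega, by omega, by omega, fun y g1 g2 => ?_⟩
    have := h5 y (by omega) (by omega)
    unfold gtr at this
    unfold tlW
    simp only [sub_zero] at this ⊢
    exact this
  · simp only [cF, bF, loF, hiF, sub_zero] at h1 h2 h3 h4 h5
    refine ⟨by omega, by omega, by omega, by omega, fun y g1 g2 => ?_⟩
    have := h5 (-y) (by omega) (by omega)
    unfold gtr at this
    unfold tlW
    simp only at this ⊢
    rw [show -(-lnW n p (Sd.C, X, Y) - 1) - 1 = lnW n p (Sd.C, X, Y) by ring,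
      show -(-y - 1) - 1 - 0 = y by ring, show - -y - 1 - 0 = y - 1 by ring] at this
    rw [and_comm, this]
    omega

lemma AF_XF (w : KL H A B) :
    AF D n H A B s0 (fwD D n H A B s0 w) w.1.1 (XF w.1).1 (XF w.1).2 := by
  have hw := (mem_EdL.1 w.2).1
  have hR := (mem_EdL.1 w.2).2
  obtain ⟨⟨s, X, Y⟩, hm⟩ := w
  simp only at hw hR
  cases s
  · exact ⟨hw, rfl⟩
  · exact absurd rfl hR
  · exact ⟨fun h => hw.2 (h.1 hw.1), rfl⟩
  · unfold AF XF
    simp only
    rw [neg_neg, show -(-X - 1) - 1 = X by ring]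
    exact ⟨fun h => hw.1 (h.2 hw.2), rfl⟩

lemma cF_eq : cF n p d w = (zF p w.1 d).1 + n * (XF w).1 := by
  obtain ⟨s, X, Y⟩ := w
  cases s <;> unfold cF zF XF lnW verS <;> simp <;> ring

lemma bF_eq : bF n p d w = (zF p w.1 d).2 + n * (XF w).2 := by
  obtain ⟨s, X, Y⟩ := w
  cases s <;> unfold bF zF XF bW verS <;> simp <;> ring

/-- the geometry without arcs in the frame -/
lemma geoF0 (C : Coarse D n H A B) (s : Sd) : ∃ AV AH Lt Vt, Geo n 0 (zF p s 0) 0 (QF H A B s)
      (fun x y => InP D p (gtr s 0 x y).1 (gtr s 0 x y).2) AV AH Lt Vt := by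
  have G0 := geo0 (p := p) C
  have G : Geo n 0 (-sh p + 0, 0) 0 (CQ H A B) (fun x y => InP D p (x - 0) y)
      (fun _ _ => False) (fun _ _ => False) (fun _ _ => False) (fun _ _ => False) := by
    simp only [add_zero, sub_zero]
    exact G0
  cases s
  · exact ⟨_, _, _, _, G⟩
  · exact ⟨_, _, _, _, G.neg⟩
  · exact ⟨_, _, _, _, G.swap⟩
  · exact ⟨_, _, _, _, G.neg.swap⟩

/-- **extreme tie points** -/
theorem hqD (C : Coarse D n H A B) (hn : 16 ≤ n) (w : KL H A B) :
    HtW D n p w.1 (qW D n p w.1).1 (qW D n p w.1).2 := by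
  obtain ⟨AV, AH, Lt, Vt, G⟩ := geoF0 (p := p) C w.1.1
  obtain ⟨h1, h0⟩ := QF_XF ((mem_EdL.1 w.2).1)
  obtain ⟨lo, hi, h⟩ := HtF.ex G h1 h0 hn
  have : ∃ q : ℤ × ℤ, HtW D n p w.1 q.1 q.2 := by
    obtain ⟨⟨s, X, Y⟩, hm⟩ := w
    rw [← cF_eq, ← bF_eq] at h
    cases s
    · exact ⟨(lo, hi), htW_of h⟩
    · refine ⟨(-hi, -lo), htW_of ?_⟩
      unfold loF hiF
      simp only [neg_neg]
      exact h
    · refine ⟨(lo, hi), htW_of ?_⟩
      unfold loF hiF
      simp only [add_zero]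
      exact h
    · refine ⟨(-hi, -lo), htW_of ?_⟩
      unfold loF hiF
      simp only [neg_neg, sub_zero]
      exact h
  exact Classical.epsilon_spec this

variable (D n H A B p s0) in
lemma x0D_eq (w : KL H A B) : x0D D n H A B p s0 w =
    xE (cF n p (pc (colp D (fwD D n H A B s0 w))) w.1)
      (hiF (pc (colp D (fwD D n H A B s0 w))) w.1.1 (qW D n p w.1).1 (qW D n p w.1).2) := by
  obtain ⟨⟨s, X, Y⟩, hm⟩ := w
  generalize hw : (⟨(s, X, Y), hm⟩ : KL H A B) = w'
  have e1 : w'.1 = (s, X, Y) := by rw [← hw]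
  unfold x0D epD xE sE hiD loD
  rw [e1]
  generalize colp D (fwD D n H A B s0 w') = c
  generalize (qW D n p (s, X, Y)).1 = lo
  generalize (qW D n p (s, X, Y)).2 = hi
  cases c <;> cases s <;>
    (unfold gm Pool.Agent.H39.Q1.sgb gp gW cF hiF eS pc posS verS
     generalize lnW n p _ = ln
     simp only [Bool.false_eq_true, if_false, if_true, Prod.mk.injEq]
     omega)

variable (D n H A B p s0) in
lemma ND_eq (w : KL H A B) : ND D n H A B p s0 w =
    nE (cF n p (pc (colp D (fwD D n H A B s0 w))) w.1)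
      (loF (pc (colp D (fwD D n H A B s0 w))) w.1.1 (qW D n p w.1).1 (qW D n p w.1).2)
      (hiF (pc (colp D (fwD D n H A B s0 w))) w.1.1 (qW D n p w.1).1 (qW D n p w.1).2) := by
  obtain ⟨⟨s, X, Y⟩, hm⟩ := w
  generalize hw : (⟨(s, X, Y), hm⟩ : KL H A B) = w'
  have e1 : w'.1 = (s, X, Y) := by rw [← hw]
  unfold ND nE sE hiD loD
  rw [e1]
  generalize colp D (fwD D n H A B s0 w') = c
  generalize (qW D n p (s, X, Y)).1 = lo
  generalize (qW D n p (s, X, Y)).2 = hi
  cases c <;> cases s <;>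
    (unfold cF hiF loF pc
     generalize lnW n p _ = ln
     simp only [Bool.false_eq_true, if_false, if_true]
     omega)

/-- **the length of a wall** -/
theorem ND_le (C : Coarse D n H A B) (hn : 16 ≤ n) (w : KL H A B) :
    2 * ND D n H A B p s0 w ≤ n ∧ n ≤ 2 * ND D n H A B p s0 w + 8 := by
  obtain ⟨h1, h2, h3, h4, -⟩ := hqD (p := p) C hn w
  unfold ND hiD loD
  omega

/-- **the field `len`** -/
theorem lenD (C : Coarse D n H A B) (hn : 16 ≤ n) {Q : ℝ} {Dd : ℤ} (hQ : (n : ℝ) ≤ 2 * (Q * Dd))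
    (w : KL H A B) : (ND D n H A B p s0 w : ℝ) ≤ Q * Dd := by
  have h := (ND_le (p := p) (s0 := s0) C hn w).1
  have h1 : (2 : ℝ) * ND D n H A B p s0 w ≤ n := by exact_mod_cast h
  linarith

/-- **the walls of the window and their ends** -/
theorem weD (hB : ArcB D n H A B p s0) (C : Coarse D n H A B)
    (hD : 4 * Dd + 40 ≤ n) (hD0 : 0 ≤ Dd) (hm : 2 * Dd + 7 ≤ m) (w : KL H A B) :
    WallE (Lx (colp D) (LaA D p s0 m) (fwD D n H A B s0 w) (epD H A B w))
      (VI (TA D p) (fmA D p s0) (bA D p) (fwD D n H A B s0 w) (epD H A B w))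
      (x0D D n H A B p s0 w) (ND D n H A B p s0 w) Dd := by
  obtain ⟨AH, G⟩ := hB.geoF (i := fwD D n H A B s0 w) (m := m) C w.1.1
  obtain ⟨h1, h0⟩ := QF_XF ((mem_EdL.1 w.2).1)
  have h := htF_of (d := pc (colp D (fwD D n H A B s0 w))) (hqD (p := p) C (by omega) w)
  rw [x0D_eq, ND_eq]
  have key := G.wallE' (D := Dd) lab_eS (AF_XF w) h1 h0 hD hD0 (by omega)
    (lo := loF (pc (colp D (fwD D n H A B s0 w))) w.1.1 (qW D n p w.1).1 (qW D n p w.1).2)
    (hi := hiF (pc (colp D (fwD D n H A B s0 w))) w.1.1 (qW D n p w.1).1 (qW D n p w.1).2)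
    (by rw [← cF_eq, ← bF_eq]; exact h)
  rw [← cF_eq] at key
  exact key

end Pool.Agent.H95.W.N
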