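import Mathlib
import Pool.Agent.H95.W.N.Dat
import Pool.Agent.H95.W.N.GeoX
import Pool.Agent.H31.Sp.Str

set_option autoImplicit false
open Finset

/-! # The ties of a coarse window and their walls (port of `H31/Sp/Str`)

`tie_str` : edge, position and arc of a tie. `hfwD`, `hsubD`, `hlocD`, `cardD` : inputs of helper15's `walls_mk`
and `FineW.card`. `dBT_D`, `laB_D`. -/

namespace Pool.Agent.H95.W.N

open Pool.Agent.H33.Q1 (lt tt tt_lt)
open Pool.Agent.H54.W (Win)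
open Pool.Agent.H72.W.N
open Pool.Agent.H31.Sp (CQ Ed EdF mem_EdF verS posS pc pc_cases dv_bd dv_pred mul_between mul_eq)
open Pool.Agent.H42.Sp (Sd)
open Pool.Agent.H13.R45 (gp)
open Pool.Agent.H39.Q1 (TF mem_TF)
open Pool.Agent.H44.FM.AsmW (TW mem_TW)
open Pool.Agent.H99.NC (inR inR_iff)

variable {D : Win} {n m H s0 i : ℤ} {A B : ℤ → ℤ} {p : Bool} {x y X Y Z u v : ℤ} {c : Bool} {s : Sd}
  {r R : ℤ}

/-- lower layer tile at an inner end -/
def t1 (s : Sd) (g : ℤ × ℤ) : ℤ × ℤ :=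
  match s with
  | .L => (g.1 - 1, g.2 - 1)
  | .R => (g.1, g.2 - 1)
  | .F => (g.1 - 1, g.2 - 1)
  | .C => (g.1 - 1, g.2)

/-- upper layer tile at an inner end -/
def t2 (s : Sd) (g : ℤ × ℤ) : ℤ × ℤ :=
  match s with
  | .L => (g.1 - 1, g.2)
  | .R => (g.1, g.2)
  | .F => (g.1, g.2 - 1)
  | .C => (g.1, g.2)

lemma tie_two (h : TieP D p s c u v) :
    LyA D p s (t1 s (bt s c (u, v))).1 (t1 s (bt s c (u, v))).2 ∧
    LyA D p s (t2 s (bt s c (u, v))).1 (t2 s (bt s c (u, v))).2 ∧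
    ((u, v) = t1 s (bt s c (u, v)) ∨ (u, v) = t2 s (bt s c (u, v))) := by
  have h2 := h.2.1
  cases s <;> cases c <;> simp only [gt, CA, add_sub_cancel_right] at h2 <;>
    refine ⟨?_, ?_, ?_⟩ <;> simp only [t1, t2, bt, add_sub_cancel_right] <;>
    first
    | exact h2.1
    | exact h2.2.1
    | simp

/-- the arc of an edge -/
noncomputable def arW (D : Win) (n H : ℤ) (A B : ℤ → ℤ) (s0 : ℤ) (w : Sd × ℤ × ℤ) : ℤ :=
  if verS w.1 = true then aL D n s0 w.2.2 else hA D n H A B s0 w.2.1 w.2.2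

lemma fwD_eq (w : KL H A B) : fwD D n H A B s0 w = arW D n H A B s0 w.1 := rfl

/-- **edge, position and arc of a tie** -/
theorem tie_str (hB : ArcB D n H A B p s0) (C : Coarse D n H A B) (h : TieP D p s c u v) :
    ∃ X Y, ek D n p (lt (u, v)) = (s, X, Y) ∧ Ed H A B s X Y ∧
      bt s c (u, v) = gW n p (s, X, Y) (poD D p (lt (u, v))) ∧
      (bW n p (s, X, Y) ≤ poD D p (lt (u, v)) ∧ poD D p (lt (u, v)) < bW n p (s, X, Y) + n) ∧
      fmA D p s0 (lt (u, v)) = arW D n H A B s0 (s, X, Y) := by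
  have hn := C.pos
  have hk := tie_two h
  have hsR := hB.neR h
  rw [ek_tie h, poD_tie h, h.fm]
  refine ⟨_, _, rfl, ?_⟩
  generalize hg : bt s c (u, v) = g at hk
  obtain ⟨g1, g2⟩ := g
  obtain ⟨k1, k2, k3⟩ := hk
  cases s
  · obtain ⟨a1, a2, a3, a4, a5⟩ := hB.L _ _ k2
    obtain ⟨b1, b2, b3, b4, b5⟩ := hB.L _ _ k1
    simp only [t1, t2, Prod.mk.injEq] at a1 a2 a3 a4 a5 b1 b2 b3 b4 b5 k3
    rw [show g1 - 1 + sh p + 1 = g1 + sh p by ring] at a1 a2 a3 b1 b2 b3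
    have e1 := dv_bd hn g2
    have e2 := dv_pred hn g2
    simp only [gW, verS, lnW, bW, if_true, arW]
    refine ⟨⟨a2, a3⟩, by rw [← a1, add_sub_cancel_right], ⟨by omega, by omega⟩, ?_⟩
    simp only [dr, sub_zero]
    rcases k3 with ⟨rfl, rfl⟩ | ⟨rfl, rfl⟩
    · rw [b5, hB.sameL a2 a3 b2 b3 (by omega) (by omega)]
    · exact a5
  · exact absurd rfl hsR
  · obtain ⟨a1, a2, a3, a4, a5⟩ := hB.F _ _ k2
    obtain ⟨b1, b2, b3, b4, b5⟩ := hB.F _ _ k1
    simp only [t1, t2, sub_add_cancel, Prod.mk.injEq] at a1 a2 a3 a4 a5 b1 b2 b3 b4 b5 k3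
    rw [show g1 - 1 + sh p = g1 + sh p - 1 by ring] at b2 b3 b4 b5
    have e1 := dv_bd hn (g1 + sh p)
    have e2 := dv_pred hn (g1 + sh p)
    simp only [gW, verS, lnW, bW, Bool.false_eq_true, if_false, arW]
    refine ⟨⟨a2, a3⟩, by rw [← a1], ⟨by omega, by omega⟩, ?_⟩
    simp only [dr, sub_zero]
    rcases k3 with ⟨rfl, rfl⟩ | ⟨rfl, rfl⟩
    · rw [b5, ArcB.sameF a2 b2]
    · exact a5
  · obtain ⟨a1, a2, a3, a4, a5⟩ := hB.C _ _ k2
    obtain ⟨b1, b2, b3, b4, b5⟩ := hB.C _ _ k1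
    simp only [t1, t2, Prod.mk.injEq] at a1 a2 a3 a4 a5 b1 b2 b3 b4 b5 k3
    rw [show g1 - 1 + sh p = g1 + sh p - 1 by ring] at b2 b3 b4 b5
    have e1 := dv_bd hn (g1 + sh p)
    have e2 := dv_pred hn (g1 + sh p)
    simp only [gW, verS, lnW, bW, Bool.false_eq_true, if_false, arW]
    refine ⟨⟨a3, a2⟩, by rw [← a1], ⟨by omega, by omega⟩, ?_⟩
    simp only [dr, sub_zero, sub_neg_eq_add]
    rcases k3 with ⟨rfl, rfl⟩ | ⟨rfl, rfl⟩
    · rw [b5, ArcB.sameC a3 b3]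
    · exact a5

variable {w w' w0 : KL H A B} {e e' : ℤ × ℤ}

/-- the wall of a tie -/
lemma wl_str (hB : ArcB D n H A B p s0) (C : Coarse D n H A B) (w0 : KL H A B)
    (h : TieP D p s c u v) : (wlD D n H A B p w0 (lt (u, v))).1 = ek D n p (lt (u, v)) := by
  obtain ⟨X, Y, h1, h2, -⟩ := tie_str hB C h
  have h3 : ek D n p (lt (u, v)) ∈ EdL H A B := by rw [h1]; exact mem_EdL.2 ⟨h2, hB.neR h⟩
  unfold wlD
  rw [dif_pos h3]

/-- **the ties of a wall** -/
theorem tie_wall (hB : ArcB D n H A B p s0) (C : Coarse D n H A B) (h : TieP D p s c u v) :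
    (wlD D n H A B p w0 (lt (u, v))).1.1 = s ∧
    bt s c (u, v) = gW n p (wlD D n H A B p w0 (lt (u, v))).1 (poD D p (lt (u, v))) ∧
    (bW n p (wlD D n H A B p w0 (lt (u, v))).1 ≤ poD D p (lt (u, v)) ∧
      poD D p (lt (u, v)) < bW n p (wlD D n H A B p w0 (lt (u, v))).1 + n) ∧
    fmA D p s0 (lt (u, v)) = fwD D n H A B s0 (wlD D n H A B p w0 (lt (u, v))) := by
  obtain ⟨X, Y, h1, h2, h3, h4, h5⟩ := tie_str hB C h
  have h6 := wl_str hB C w0 h
  rw [fwD_eq, h6, h1]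
  exact ⟨rfl, h3, h4, h5⟩

/-- **the field `hfw`** -/
theorem hfwD (hB : ArcB D n H A B p s0) (C : Coarse D n H A B) (w0 : KL H A B) :
    ∀ e ∈ TA D p, fmA D p s0 e = fwD D n H A B s0 (wlD D n H A B p w0 e) := by
  intro e he
  obtain ⟨u, v, s, c, rfl, h⟩ := exists_tie he
  exact (tie_wall hB C h).2.2.2

/-- **the field `hsub`** -/
theorem hsubD (w0 : KL H A B) (r : ℤ) : ∀ w, FlD D n H A B p w0 r w ⊆
    TW (TA D p) (wlD D n H A B p w0) w := by
  classical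
  intro w e he
  unfold FlD at he
  rw [mem_filter] at he
  exact mem_TW.2 ⟨he.1, he.2.1⟩

lemma mem_FlD : e ∈ FlD D n H A B p w0 r w ↔ e ∈ TA D p ∧ wlD D n H A B p w0 e = w ∧
    bW n p w.1 + r ≤ poD D p e ∧ poD D p e + r ≤ bW n p w.1 + n := by
  classical
  unfold FlD
  rw [mem_filter]

/-- the kinds of two ties with inner ends on the interior of one edge -/
lemma gp_near {c : Bool} {g g' : ℤ × ℤ} (h1 : (g.1 + g.2) % 2 = pc c) (h2 : (g'.1 + g'.2) % 2 = pc c)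
    (h : inR (gp g) R (gp g')) : |g.1 - g'.1| ≤ 2 * R ∧ |g.2 - g'.2| ≤ 2 * R := by
  rw [inR_iff] at h
  unfold gp at h
  simp only at h
  rw [abs_le, abs_le]
  rcases pc_cases (c := c) with ⟨-, e⟩ | ⟨-, e⟩ <;> rw [e] at h1 h2 <;> omega

lemma bt_par (h : TieP D p s c u v) : ((bt s c (u, v)).1 + (bt s c (u, v)).2) % 2 = pc c := by
  have h1 := h.odd
  cases s <;> cases c <;> simp only [bt, pc, Bool.false_eq_true, if_false, if_true] <;> omega

/-- an edge near an interior point of an edge is the same -/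
theorem ed_near (hn : 0 < n) (w w' : KL H A B) {a a' r : ℤ}
    (h1 : bW n p w.1 + r ≤ a) (h2 : a + r ≤ bW n p w.1 + n) (hr : r ≤ n)
    (h3 : bW n p w'.1 ≤ a') (h4 : a' ≤ bW n p w'.1 + n)
    (h5 : |(gW n p w.1 a).1 - (gW n p w'.1 a').1| < r)
    (h6 : |(gW n p w.1 a).2 - (gW n p w'.1 a').2| < r) : w' = w := by
  have e1 := (mem_EdL.1 w.2).1
  have e2 := (mem_EdL.1 w'.2).1
  obtain ⟨⟨s, X, Y⟩, hm⟩ := w
  obtain ⟨⟨s', X', Y'⟩, hm'⟩ := w'
  rw [abs_lt] at h5 h6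
  simp only at e1 e2
  have key : verS s = verS s' ∧ X' = X ∧ Y' = Y := by
    cases hv : verS s <;> cases hv' : verS s' <;>
      simp only [gW, bW, lnW, hv, hv', Bool.false_eq_true, if_false, if_true] at h1 h2 h3 h4 h5 h6
    · refine ⟨rfl, mul_eq hn (by omega) (by omega), ?_⟩
      exact mul_eq hn (by omega) (by omega)
    · exfalso
      exact mul_between (Y := X) (k := X') hn (by omega) (by omega)
    · exfalso
      exact mul_between (Y := Y) (k := Y') hn (by omega) (by omega)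
    · refine ⟨rfl, mul_eq hn (by omega) (by omega), ?_⟩
      exact mul_eq hn (by omega) (by omega)
  obtain ⟨k1, rfl, rfl⟩ := key
  have : s' = s := by
    cases s <;> cases s' <;> simp only [verS, Bool.true_eq_false, Bool.false_eq_true] at k1 <;>
      first
      | rfl
      | exact absurd e1.1 e2.1
      | exact absurd e2.1 e1.1
  subst this
  rfl

/-- **the field `hloc`** -/
theorem hlocD (hB : ArcB D n H A B p s0) (C : Coarse D n H A B) (w0 : KL H A B)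
    (hr : 2 * R < r) (hrn : r ≤ n) : ∀ w, ∀ e ∈ FlD D n H A B p w0 r w,
    ∀ e' ∈ TF (TA D p) (fmA D p s0) (fwD D n H A B s0 w),
    inR (bA D p e) R (bA D p e') → wlD D n H A B p w0 e' = w := by
  intro w e he e' he' hin
  obtain ⟨h1, h2, h3, h4⟩ := mem_FlD.1 he
  obtain ⟨h5, h6⟩ := mem_TF.1 he'
  obtain ⟨u, v, s, c, rfl, t⟩ := exists_tie h1
  obtain ⟨u', v', s', c', rfl, t'⟩ := exists_tie h5
  have hf := hfwD hB C w0 _ h1
  rw [h2, ← h6] at hf
  have hc : c' = c := by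
    rw [← t'.co (s0 := s0), ← t.co (s0 := s0), hf]
  subst hc
  rw [t.b, t'.b] at hin
  have hg := gp_near (bt_par t) (bt_par t') hin
  obtain ⟨-, k1, k2, -⟩ := tie_wall (w0 := w0) hB C t
  obtain ⟨-, k3, k4, -⟩ := tie_wall (w0 := w0) hB C t'
  rw [k1, k3, h2] at hg
  exact ed_near C.pos w _ h3 h4 hrn k4.1 k4.2.le (by omega) (by omega)

/-- the kept tile is determined by the inner end -/
lemma bt_inj {t t' : ℤ × ℤ} (h : bt s c t = bt s c t') : t = t' := by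
  obtain ⟨a, b⟩ := t
  obtain ⟨a', b'⟩ := t'
  cases s <;> cases c <;> simp only [bt, Prod.mk.injEq] at h ⊢ <;> omega

/-- ties of one wall with one position -/
lemma po_inj (hB : ArcB D n H A B p s0) (C : Coarse D n H A B) (h : e ∈ TA D p) (h' : e' ∈ TA D p)
    (hw : wlD D n H A B p w0 e = wlD D n H A B p w0 e') (hp : poD D p e = poD D p e') : e = e' := by
  obtain ⟨u, v, s, c, rfl, t⟩ := exists_tie h
  obtain ⟨u', v', s', c', rfl, t'⟩ := exists_tie h'
  obtain ⟨k0, k1, k2, k3⟩ := tie_wall (w0 := w0) hB C t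
  obtain ⟨k0', k1', k2', k3'⟩ := tie_wall (w0 := w0) hB C t'
  have hs : s = s' := by rw [← k0, ← k0', hw]
  have hc : c = c' := by
    rw [← t'.co (s0 := s0), ← t.co (s0 := s0), k3, k3', hw]
  subst hs hc
  rw [hp, hw, ← k1'] at k1
  rw [bt_inj k1]

/-- **the number of ties of a wall** -/
theorem cardD (hB : ArcB D n H A B p s0) (C : Coarse D n H A B) (w0 : KL H A B) (hr : 1 ≤ r)
    (w : KL H A B) : ((FlD D n H A B p w0 r w).card : ℝ) ≤ n := by
  have hn := C.pos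
  have h1 : (FlD D n H A B p w0 r w).card ≤ (Finset.Ico (bW n p w.1) (bW n p w.1 + n)).card := by
    refine card_le_card_of_injOn (poD D p) (fun e he => ?_) (fun e he e' he' h => ?_)
    · obtain ⟨a1, a2, a3, a4⟩ := mem_FlD.1 (mem_coe.1 he)
      rw [mem_coe, mem_Ico]
      omega
    · obtain ⟨a1, a2, a3, a4⟩ := mem_FlD.1 (mem_coe.1 he)
      obtain ⟨b1, b2, b3, b4⟩ := mem_FlD.1 (mem_coe.1 he')
      exact po_inj (w0 := w0) hB C a1 b1 (a2.trans b2.symm) h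
  rw [Int.card_Ico, add_sub_cancel_left] at h1
  have h2 : ((FlD D n H A B p w0 r w).card : ℤ) ≤ n := by
    have := Int.toNat_of_nonneg hn.le
    omega
  exact_mod_cast h2

/-- **the field `dBT`** -/
theorem dBT_D : Disjoint (LBA D p m) (TA D p) := by
  rw [disjoint_left]
  intro e he he'
  obtain ⟨u, v, s, c, rfl, t⟩ := exists_tie he'
  exact t.ly.out (mem_LBA.1 he).1

/-- **the field `laB`** -/
theorem laB_D (i : ℤ) : LaA D p s0 m i ⊆ LBA D p (m + 1) := by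
  intro e he
  have ho : (e.1 + e.2) % 2 = 1 := odd_TB he
  obtain ⟨x, y, rfl⟩ := Pool.Agent.H74.R45.exists_lt ho
  obtain ⟨h1, u, v, h2, h3, h4, h5, h6, h7⟩ := mem_LaA.1 he
  exact mem_LBA.2 ⟨h1, u, v, h2, by omega, by omega, by omega, by omega⟩

end Pool.Agent.H95.W.N
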